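import Pool.Agent.R719.DD.RowSp
import Pool.Agent.TH57.TT2.Long3
import Pool.Agent.TH57.Thr.KZero

set_option autoImplicit false
set_option linter.unusedSectionVars false

/-! Modules presented by row dominant matrices. -/

namespace Pool.Agent.R719.DD

open Matrix TH57.Thr TH6.LF TH6.CX Pool.Agent.Y75.Th Pool.Agent.Y35.KC.TTm

variable {Γ : Type} [Group Γ]

theorem RB_of_left {ν ρ κ : Type} [Fintype ν] [DecidableEq ν] [Fintype ρ]
    (A : Matrix ν κ (MonoidAlgebra ℤ Γ))
    (P : Matrix ρ ν (MonoidAlgebra ℤ Γ)) (P' : Matrix ν ρ (MonoidAlgebra ℤ Γ)) (h : P' * P = 1)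
    (hA : RB (P * A)) : RB A := by
  obtain ⟨μ, i1, Q, h1, h2, h3⟩ := hA
  refine ⟨μ, i1, Q, h1, fun y => ?_, fun z => ?_⟩
  · obtain ⟨z, hz⟩ := h2 (y ᵥ* P')
    refine ⟨z, ?_⟩
    rw [hz, ← Matrix.vecMul_vecMul, Matrix.vecMul_vecMul y, h, Matrix.vecMul_one]
  · obtain ⟨y, hy⟩ := h3 z
    exact ⟨y ᵥ* P, by rw [Matrix.vecMul_vecMul, hy]⟩

/-- each row has a large coefficient in a column of its own -/
def RDom {ν κ : Type} [Fintype κ] (A : Matrix ν κ (MonoidAlgebra ℤ Γ)) : Prop :=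
  ∃ σ : ν → κ, Function.Injective σ ∧
    ∀ i, ∃ g : Γ, (∑ j, (l1 (A i j) : ℤ)) ≤ 2 * |(A i (σ i)).coeff g|

theorem RB_of_RDom (htf : ∀ g : Γ, ∀ k : ℕ, 0 < k → g ^ k = 1 → g = 1) {ν κ : Type} [Fintype ν]
    [DecidableEq ν] [Fintype κ] [DecidableEq κ] (A : Matrix ν κ (MonoidAlgebra ℤ Γ))
    (h : RDom A) : RB A := by
  classical
  obtain ⟨σ, hσ, h⟩ := h
  choose g hg using h
  have hs : ∀ i, ∃ ε : ℤ, ε * ε = 1 ∧ ε * (A i (σ i)).coeff (g i)
      = |(A i (σ i)).coeff (g i)| := by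
    intro i
    rcases abs_choice ((A i (σ i)).coeff (g i)) with h1 | h1
    · exact ⟨1, by norm_num, by rw [h1, one_mul]⟩
    · exact ⟨-1, by norm_num, by rw [h1]; ring⟩
  choose ε hε1 hε2 using hs
  let P : Matrix κ ν (MonoidAlgebra ℤ Γ) := fun k i =>
    if σ i = k then MonoidAlgebra.single (g i)⁻¹ (ε i) else 0
  let P' : Matrix ν κ (MonoidAlgebra ℤ Γ) := fun i k =>
    if σ i = k then MonoidAlgebra.single (g i) (ε i) else 0
  have hP : P' * P = 1 := by
    ext1 i j
    rw [Matrix.mul_apply, Finset.sum_eq_single (σ i)]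
    · simp only [P, P', if_pos]
      by_cases hij : i = j
      · subst hij
        rw [if_pos rfl, Matrix.one_apply_eq, MonoidAlgebra.single_mul_single, mul_inv_cancel,
          hε1, MonoidAlgebra.one_def]
      · rw [if_neg (fun h => hij (hσ h).symm), mul_zero, Matrix.one_apply_ne hij]
    · intro k _ hk
      simp only [P']
      rw [if_neg (Ne.symm hk), zero_mul]
    · simp
  have hPA : ∀ i j, (P * A) (σ i) j = MonoidAlgebra.single (g i)⁻¹ (ε i) * A i j := by
    intro i j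
    rw [Matrix.mul_apply, Finset.sum_eq_single i]
    · simp only [P, if_pos]
    · intro k _ hk
      simp only [P]
      rw [if_neg (fun h => hk (hσ h)), zero_mul]
    · simp
  have hPA0 : ∀ k, (∀ i, σ i ≠ k) → ∀ j, (P * A) k j = 0 := by
    intro k hk j
    rw [Matrix.mul_apply]
    refine Finset.sum_eq_zero fun i _ => ?_
    simp only [P]
    rw [if_neg (hk i), zero_mul]
  have hD : DDom (P * A) := by
    intro k
    by_cases hk : ∃ i, σ i = k
    · obtain ⟨i, rfl⟩ := hk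
      have e1 : ((P * A) (σ i) (σ i)).coeff 1 = |(A i (σ i)).coeff (g i)| := by
        rw [hPA, MonoidAlgebra.coeff_single_mul_apply, ← hε2]
        simp
      rw [e1]
      refine le_trans (Finset.sum_le_sum fun j _ => ?_) (hg i)
      rw [hPA]
      have e2 := l1_single_mul (g i)⁻¹ (ε i) (A i j)
      have e3 : (ε i).natAbs = 1 := by
        have := congrArg Int.natAbs (hε1 i)
        rw [Int.natAbs_mul] at this
        exact Nat.eq_one_of_mul_eq_one_left this
      rw [e3, one_mul] at e2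
      exact_mod_cast e2
    · push Not at hk
      simp only [hPA0 k hk, (l1_zero_iff (0 : MonoidAlgebra ℤ Γ)).2 rfl]
      simp
  refine RB_of_left A P P' hP (RB_rowdom htf (Fintype.card κ) (P * A) hD fun s _ => ?_)
  exact Finset.card_le_univ s

/-- a basis matrix -/
theorem RB_mat {ν κ : Type} [Fintype ν] [DecidableEq ν] [Fintype κ] [DecidableEq κ]
    (A : Matrix ν κ (MonoidAlgebra ℤ Γ)) (h : RB A) :
    ∃ (μ : Type) (_ : Fintype μ) (_ : DecidableEq μ) (Q : Matrix μ κ (MonoidAlgebra ℤ Γ))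
      (C : Matrix ν μ (MonoidAlgebra ℤ Γ)) (D : Matrix μ ν (MonoidAlgebra ℤ Γ)),
      (∀ y : μ → MonoidAlgebra ℤ Γ, y ᵥ* Q = 0 → y = 0) ∧ C * Q = A ∧ D * A = Q := by
  classical
  obtain ⟨μ, i1, Q, h1, h2, h3⟩ := h
  choose C hC using fun i => h2 (Pi.single i 1)
  choose D hD using fun a => h3 (Pi.single a 1)
  refine ⟨μ, i1, inferInstance, Q, C, D, h1, ?_, ?_⟩
  · ext1 i j
    have := congrFun (hC i) j
    rw [Matrix.single_one_vecMul] at this
    exact this
  · ext1 i j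
    have := congrFun (hD i) j
    rw [Matrix.single_one_vecMul] at this
    exact this

theorem free_of_RB {ν κ : Type} [Fintype ν] [DecidableEq ν] [Fintype κ] [DecidableEq κ]
    (A : Matrix ν κ (MonoidAlgebra ℤ Γ)) (h : RB A) :
    Module.Free (MonoidAlgebra ℤ Γ) (LinearMap.range A.vecMulLinear) := by
  obtain ⟨μ, i1, i2, Q, C, D, h1, h2, h3⟩ := RB_mat A h
  have hr : LinearMap.range A.vecMulLinear = LinearMap.range Q.vecMulLinear := by
    apply le_antisymm
    · rintro _ ⟨y, rfl⟩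
      refine ⟨y ᵥ* C, ?_⟩
      rw [Matrix.vecMulLinear_apply, Matrix.vecMulLinear_apply, Matrix.vecMul_vecMul, h2]
    · rintro _ ⟨y, rfl⟩
      refine ⟨y ᵥ* D, ?_⟩
      rw [Matrix.vecMulLinear_apply, Matrix.vecMulLinear_apply, Matrix.vecMul_vecMul, h3]
  rw [hr]
  have hinj : Function.Injective Q.vecMulLinear := by
    rw [injective_iff_map_eq_zero]
    intro y hy
    exact h1 y hy
  exact Module.Free.of_equiv (LinearEquiv.ofInjective Q.vecMulLinear hinj)

/-- a regular matrix whose row space is free -/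
theorem SFC_of_RB {ν κ : Type} [Fintype ν] [DecidableEq ν] [Fintype κ] [DecidableEq κ]
    (A : Matrix ν κ (MonoidAlgebra ℤ Γ)) (h : RB A) (Y : Matrix κ ν (MonoidAlgebra ℤ Γ))
    (hY : A * Y * A = A) : SFC A := by
  obtain ⟨μ, i1, i2, Q, C, D, h1, h2, h3⟩ := RB_mat A h
  have e1 : Q * Y * A = Q := by
    calc Q * Y * A = D * (A * Y * A) := by rw [← h3]; simp only [Matrix.mul_assoc]
      _ = Q := by rw [hY, h3]
  have hinj : ∀ M : Matrix μ μ (MonoidAlgebra ℤ Γ), M * Q = 0 → M = 0 := by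
    intro M hM
    funext a
    exact h1 (M a) (congrFun hM a)
  have e2 : Q * (Y * C) = 1 := by
    have e3 : (Q * (Y * C) - 1) * Q = 0 := by
      rw [Matrix.sub_mul, Matrix.one_mul]
      calc Q * (Y * C) * Q - Q = Q * Y * (C * Q) - Q := by simp only [Matrix.mul_assoc]
        _ = 0 := by rw [h2, e1, sub_self]
    exact sub_eq_zero.1 (hinj _ e3)
  set S := Y * C with hS
  have e3 : Y * A = S * Q := by rw [hS, Matrix.mul_assoc, h2]
  have e4 : (1 - S * Q) * (1 - S * Q) = 1 - S * Q := by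
    have : S * Q * (S * Q) = S * Q := by
      rw [Matrix.mul_assoc, ← Matrix.mul_assoc Q, e2, Matrix.one_mul]
    rw [Matrix.sub_mul, Matrix.mul_sub, Matrix.mul_sub, this]
    simp
  refine ⟨Y, hY, μ, κ, i1, i2, inferInstance, inferInstance, fromRows (1 - S * Q) Q,
    fromCols (1 - S * Q) S, ?_, ?_⟩
  · rw [Matrix.fromRows_mul_fromCols, e3, e4, e2]
    congr 1
    · rw [Matrix.sub_mul, Matrix.one_mul, Matrix.mul_assoc, e2, Matrix.mul_one, sub_self]
    · rw [Matrix.mul_sub, Matrix.mul_one, ← Matrix.mul_assoc, e2, Matrix.one_mul, sub_self]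
  · rw [Matrix.fromCols_mul_fromRows, e4, sub_add_cancel]

/-- stabilised presentations -/
theorem coker_stab {R : Type} [Ring R] {κ μ : Type} [Fintype κ] [DecidableEq κ] [Fintype μ]
    [DecidableEq μ] (A : Matrix κ κ R) (P Q : (Matrix (κ ⊕ μ) (κ ⊕ μ) R)ˣ) :
    Nonempty (((κ → R) ⧸ LinearMap.range A.vecMulLinear) ≃ₗ[R]
      ((κ ⊕ μ → R) ⧸ LinearMap.range (P.val * fromBlocks A 0 0 1 * Q.val).vecMulLinear)) := by
  let f : (κ ⊕ μ → R) →ₗ[R] ((κ → R) ⧸ LinearMap.range A.vecMulLinear) :=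
    (LinearMap.range A.vecMulLinear).mkQ ∘ₗ (LinearMap.fst R _ _ ∘ₗ
      (LinearEquiv.sumArrowLequivProdArrow κ μ R R).toLinearMap) ∘ₗ Q⁻¹.val.vecMulLinear
  have hf : ∀ w, f w = (LinearMap.range A.vecMulLinear).mkQ ((w ᵥ* Q⁻¹.val) ∘ Sum.inl) :=
    fun w => rfl
  have hsurj : Function.Surjective f := by
    intro x
    obtain ⟨x, rfl⟩ := Submodule.mkQ_surjective _ x
    refine ⟨(Sum.elim x 0) ᵥ* Q.val, ?_⟩
    rw [hf, Matrix.vecMul_vecMul, Q.mul_inv, Matrix.vecMul_one, Sum.elim_comp_inl]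
  have hker : LinearMap.ker f
      = LinearMap.range (P.val * fromBlocks A 0 0 1 * Q.val).vecMulLinear := by
    ext w
    rw [LinearMap.mem_ker, hf, ← LinearMap.mem_ker, Submodule.ker_mkQ]
    constructor
    · rintro ⟨y, hy⟩
      rw [Matrix.vecMulLinear_apply] at hy
      refine ⟨(Sum.elim y ((w ᵥ* Q⁻¹.val) ∘ Sum.inr)) ᵥ* P⁻¹.val, ?_⟩
      rw [Matrix.vecMulLinear_apply, ← Matrix.vecMul_vecMul, ← Matrix.vecMul_vecMul,
        Matrix.vecMul_vecMul _ P⁻¹.val, P.inv_mul, Matrix.vecMul_one, Matrix.vecMul_fromBlocks]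
      simp only [Matrix.vecMul_zero, Matrix.vecMul_one, add_zero, zero_add, Sum.elim_comp_inl,
        Sum.elim_comp_inr, hy]
      rw [Sum.elim_comp_inl_inr, Matrix.vecMul_vecMul, Q.inv_mul, Matrix.vecMul_one]
    · rintro ⟨y, hy⟩
      rw [Matrix.vecMulLinear_apply] at hy
      refine ⟨(y ᵥ* P.val) ∘ Sum.inl, ?_⟩
      rw [← hy, Matrix.vecMulLinear_apply, Matrix.vecMul_vecMul, Matrix.mul_assoc, Q.mul_inv,
        Matrix.mul_one, ← Matrix.vecMul_vecMul, Matrix.vecMul_fromBlocks]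
      simp
  exact ⟨(LinearMap.quotKerEquivOfSurjective f hsurj).symm.trans
    (Submodule.quotEquivOfEq _ _ hker)⟩

/-- a finitely generated projective module has a square presentation matrix -/
theorem exists_square {R : Type} [Ring R] (P : Type) [AddCommGroup P] [Module R P]
    (hf : Module.Finite R P) (hP : Module.Projective R P) :
    ∃ (n : ℕ) (A : Matrix (Fin n) (Fin n) R),
      Nonempty (P ≃ₗ[R] ((Fin n → R) ⧸ LinearMap.range A.vecMulLinear)) := by
  obtain ⟨n, f, hfs⟩ := Module.Finite.exists_fin' R P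
  obtain ⟨s, hs⟩ := Module.projective_lifting_property f LinearMap.id hfs
  have hs' : ∀ p, f (s p) = p := fun p => LinearMap.congr_fun hs p
  let e : (Fin n → R) →ₗ[R] (Fin n → R) := LinearMap.id - s ∘ₗ f
  let A : Matrix (Fin n) (Fin n) R := fun i => e (Pi.single i 1)
  have hA : A.vecMulLinear = e := by
    apply (Pi.basisFun R (Fin n)).ext
    intro j
    rw [Matrix.vecMulLinear_apply, Pi.basisFun_apply, Matrix.single_one_vecMul]
    rfl
  have hker : LinearMap.range A.vecMulLinear = LinearMap.ker f := by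
    rw [hA]
    ext x
    rw [LinearMap.mem_ker]
    constructor
    · rintro ⟨y, rfl⟩
      change f (y - s (f y)) = 0
      rw [map_sub, hs', sub_self]
    · intro h
      refine ⟨x, ?_⟩
      change x - s (f x) = x
      rw [h, map_zero, sub_zero]
  exact ⟨n, A, ⟨(LinearMap.quotKerEquivOfSurjective f hfs).symm.trans
    (Submodule.quotEquivOfEq _ _ hker.symm)⟩⟩

end Pool.Agent.R719.DD
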