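import Pool.Agent.R719.DD.Fact

set_option autoImplicit false
set_option linter.unusedSectionVars false

/-! Sharpness: a factor of dominance above one is no restriction. -/

namespace Pool.Agent.R719.DD

open Matrix TH57.Thr TH6.LF TH6.CX Pool.Agent.Y75.Th Pool.Agent.Y35.KC.TTm

variable {Γ : Type} [Group Γ] {κ : Type} [Fintype κ] [DecidableEq κ]

theorem l1_add_le (x y : MonoidAlgebra ℤ Γ) : l1 (x + y) ≤ l1 x + l1 y := by
  classical
  set T := x.coeff.support ∪ y.coeff.support ∪ (x + y).coeff.support with hT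
  rw [l1_eq x T (by rw [hT]; intro g hg; simp [Finset.mem_union, hg]),
    l1_eq y T (by rw [hT]; intro g hg; simp [Finset.mem_union, hg]),
    l1_eq (x + y) T (by rw [hT]; exact Finset.subset_union_right), ← Finset.sum_add_distrib]
  refine Finset.sum_le_sum fun g _ => ?_
  have : (x + y).coeff g = x.coeff g + y.coeff g := by simp
  rw [this]
  exact Int.natAbs_add_le _ _

theorem l1_one : l1 (1 : MonoidAlgebra ℤ Γ) = 1 := by
  classical
  rw [l1_eq (1 : MonoidAlgebra ℤ Γ) {1} (by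
    rw [MonoidAlgebra.one_def, MonoidAlgebra.coeff_single]
    exact Finsupp.support_single_subset)]
  simp [MonoidAlgebra.one_def]

theorem l1_nat (N : ℕ) : l1 ((N : MonoidAlgebra ℤ Γ)) ≤ N := by
  induction N with
  | zero => rw [Nat.cast_zero, (l1_zero_iff _).2 rfl]
  | succ n ih =>
    rw [Nat.cast_succ]
    refine (l1_add_le _ _).trans ?_
    rw [l1_one]; omega

theorem coeff_le_l1 (x : MonoidAlgebra ℤ Γ) (g : Γ) : |x.coeff g| ≤ (l1 x : ℤ) := by
  have := sum_le_l1 x {g}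
  rwa [Finset.sum_singleton] at this

/-- the matrix with `N` ones in every row, in columns of their own -/
noncomputable def xm (Γ : Type) [Group Γ] (κ : Type) [DecidableEq κ] (N : ℕ) :
    Matrix κ (κ × Fin N) (MonoidAlgebra ℤ Γ) :=
  Matrix.of fun i p => if i = p.1 then 1 else 0

theorem xm_gram (N : ℕ) : xm Γ κ N * adj (xm Γ κ N)
    = (N : Matrix κ κ (MonoidAlgebra ℤ Γ)) := by
  ext1 i j
  rw [Matrix.mul_apply, Fintype.sum_prod_type]
  have h1 : ∀ k : κ, ∑ l : Fin N, xm Γ κ N i (k, l) * adj (xm Γ κ N) (k, l) j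
      = if i = k ∧ j = k then (N : MonoidAlgebra ℤ Γ) else 0 := by
    intro k
    have h2 : ∀ l : Fin N, xm Γ κ N i (k, l) * adj (xm Γ κ N) (k, l) j
        = if i = k ∧ j = k then (1 : MonoidAlgebra ℤ Γ) else 0 := by
      intro l
      rw [adj_apply]
      simp only [xm, Matrix.of_apply]
      by_cases hi : i = k
      · by_cases hj : j = k
        · rw [if_pos hi, if_pos hj, bar_one, mul_one, if_pos ⟨hi, hj⟩]
        · rw [if_neg hj, bar_zero, mul_zero, if_neg fun h => hj h.2]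
      · rw [if_neg hi, zero_mul, if_neg fun h => hi h.1]
    rw [Finset.sum_congr rfl fun l _ => h2 l]
    by_cases h : i = k ∧ j = k
    · simp [h]
    · simp [h]
  rw [Finset.sum_congr rfl fun k _ => h1 k]
  by_cases h : i = j
  · subst h
    rw [Finset.sum_eq_single i]
    · simp [Matrix.natCast_apply]
    · intro b _ hb; simp [Ne.symm hb]
    · simp
  · rw [Finset.sum_eq_zero]
    · simp [Matrix.natCast_apply, h]
    · intro k _
      rw [if_neg]
      rintro ⟨h1, h2⟩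
      exact h (h1.trans h2.symm)

/-- the unitriangular matrix -/
noncomputable def pm (Γ : Type) [Group Γ] (κ : Type) [Fintype κ] [DecidableEq κ] (N : ℕ) :
    (Matrix (κ ⊕ κ × Fin N) (κ ⊕ κ × Fin N) (MonoidAlgebra ℤ Γ))ˣ where
  val := fromBlocks 1 (xm Γ κ N) 0 1
  inv := fromBlocks 1 (-xm Γ κ N) 0 1
  val_inv := by rw [fromBlocks_multiply]; simp [fromBlocks_one]
  inv_val := by rw [fromBlocks_multiply]; simp [fromBlocks_one]

theorem pm_mul (N : ℕ) (S : Matrix κ κ (MonoidAlgebra ℤ Γ)) :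
    (pm Γ κ N).val * fromBlocks S 0 0 1 * adj (pm Γ κ N).val
      = fromBlocks (S + (N : Matrix κ κ (MonoidAlgebra ℤ Γ))) (xm Γ κ N) (adj (xm Γ κ N)) 1 := by
  rw [← xm_gram (Γ := Γ) (κ := κ) N]
  change fromBlocks 1 (xm Γ κ N) 0 1 * fromBlocks S 0 0 1 * adj (fromBlocks 1 (xm Γ κ N) 0 1) = _
  rw [adj_fromBlocks, fromBlocks_multiply, fromBlocks_multiply, adj_one, adj_zero, adj_one]
  simp

theorem pm_gram (N : ℕ) (A : Matrix κ κ (MonoidAlgebra ℤ Γ)) :
    ((pm Γ κ N).val * fromBlocks A 0 0 1) * adj ((pm Γ κ N).val * fromBlocks A 0 0 1)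
      = fromBlocks (A * adj A + (N : Matrix κ κ (MonoidAlgebra ℤ Γ)))
        (xm Γ κ N) (adj (xm Γ κ N)) 1 := by
  rw [← pm_mul, adj_mul, adj_fromBlocks, adj_zero, adj_one, adj_zero]
  have : fromBlocks (A * adj A) 0 0 (1 : Matrix (κ × Fin N) (κ × Fin N) (MonoidAlgebra ℤ Γ))
      = fromBlocks A 0 0 1 * fromBlocks (adj A) 0 0 1 := by
    rw [fromBlocks_multiply]; simp
  rw [this]
  simp only [Matrix.mul_assoc]

theorem TT_pm' (U : Subgroup (MonoidAlgebra ℤ Γ)ˣ) (N : ℕ) : TT U (pm Γ κ N) := by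
  have h1 : TT U ((pm Γ κ N)⁻¹) := by
    have h2 := TT_tri U (κ := κ × Fin N) (μ := κ) 1 1 (-xm Γ κ N)
      (Units.map (re (Equiv.sumComm (κ × Fin N) κ)) (pm Γ κ N)⁻¹) (by
        ext1 i j
        rcases i with i | i <;> rcases j with j | j <;> rfl) (TT_one _) (TT_one _)
    have h3 := TT_re U (Equiv.sumComm κ (κ × Fin N)) _ h2
    convert h3 using 1
    apply Units.ext
    ext1 i j
    rcases i with i | i <;> rcases j with j | j <;> rfl
  have := TT_inv _ _ h1
  rwa [inv_inv] at this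

theorem TT_pm (N : ℕ) : TT (TU Γ) (pm Γ κ N) := TT_pm' _ N

/-- the sum of the absolute values of all the coefficients of a row -/
theorem dom_stab (c : ℝ) (hc : 1 < c) (S : Matrix κ κ (MonoidAlgebra ℤ Γ)) :
    ∃ N₁ : ℕ, ∀ N : ℕ, N₁ ≤ N → ∀ p : κ ⊕ κ × Fin N,
      (∑ q, (l1 ((fromBlocks (S + (N : Matrix κ κ (MonoidAlgebra ℤ Γ)))
        (xm Γ κ N) (adj (xm Γ κ N)) 1 : Matrix (κ ⊕ κ × Fin N) (κ ⊕ κ × Fin N) _) p q) : ℝ))
      - |(((fromBlocks (S + (N : Matrix κ κ (MonoidAlgebra ℤ Γ)))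
        (xm Γ κ N) (adj (xm Γ κ N)) 1 : Matrix (κ ⊕ κ × Fin N) (κ ⊕ κ × Fin N) _) p p).coeff 1
        : ℝ)|
      ≤ c * (((fromBlocks (S + (N : Matrix κ κ (MonoidAlgebra ℤ Γ)))
        (xm Γ κ N) (adj (xm Γ κ N)) 1 : Matrix (κ ⊕ κ × Fin N) (κ ⊕ κ × Fin N) _) p p).coeff 1
        : ℝ) := by
  classical
  set M : ℕ := ∑ i, ∑ j, l1 (S i j) with hM
  obtain ⟨N0, hN0⟩ := exists_nat_ge ((2 + c) * M / (c - 1))
  refine ⟨N0 + M, fun N hN => ?_⟩
  have hNR : (N0 : ℝ) + M ≤ N := by exact_mod_cast hN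
  have hNM : (M : ℝ) ≤ N := by have : (0:ℝ) ≤ N0 := Nat.cast_nonneg _; linarith
  have hN1 : (2 + c) * M ≤ (c - 1) * N := by
    rw [div_le_iff₀ (by linarith)] at hN0
    have h1 : (N0 : ℝ) ≤ N := by have : (0:ℝ) ≤ M := Nat.cast_nonneg _; linarith
    nlinarith
  rintro (i | p)
  · rw [Fintype.sum_sum_type]
    simp only [fromBlocks_apply₁₁, fromBlocks_apply₁₂]
    have e1 : ∑ x : κ × Fin N, (l1 (xm Γ κ N i x) : ℝ) = N := by
      rw [Fintype.sum_prod_type, Finset.sum_eq_single i]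
      · simp [xm, l1_one]
      · intro b _ hb
        refine Finset.sum_eq_zero fun l _ => ?_
        simp only [xm, Matrix.of_apply, if_neg (Ne.symm hb)]
        rw [(l1_zero_iff _).2 rfl]; norm_num
      · simp
    have e2 : ∑ x, (l1 ((S + (N : Matrix κ κ (MonoidAlgebra ℤ Γ))) i x) : ℝ)
        ≤ (∑ x, (l1 (S i x) : ℝ)) + N := by
      have h1 : ∀ x, (l1 ((S + (N : Matrix κ κ (MonoidAlgebra ℤ Γ))) i x) : ℝ)
          ≤ l1 (S i x) + (if x = i then (N : ℝ) else 0) := by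
        intro x
        rw [Matrix.add_apply, Matrix.natCast_apply]
        by_cases hx : x = i
        · rw [if_pos hx.symm, if_pos hx]
          have h2 := l1_add_le (S i x) ((N : MonoidAlgebra ℤ Γ))
          have h3 := l1_nat (Γ := Γ) N
          exact_mod_cast h2.trans (Nat.add_le_add_left h3 _)
        · rw [if_neg (Ne.symm hx), if_neg hx, add_zero, Nat.cast_zero, add_zero]
      refine (Finset.sum_le_sum fun x _ => h1 x).trans (le_of_eq ?_)
      rw [Finset.sum_add_distrib, Finset.sum_ite_eq' Finset.univ i, if_pos (Finset.mem_univ i)]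
    have e3 : ((((S + (N : Matrix κ κ (MonoidAlgebra ℤ Γ))) i i).coeff 1 : ℤ) : ℝ)
        = ((S i i).coeff 1 : ℝ) + N := by
      rw [Matrix.add_apply, Matrix.natCast_apply, if_pos rfl]
      have h1 : ((N : MonoidAlgebra ℤ Γ)).coeff 1 = N := by
        rw [← nsmul_one, MonoidAlgebra.coeff_smul]
        simp [MonoidAlgebra.one_def]
      rw [MonoidAlgebra.coeff_add, Finsupp.add_apply, h1]
      push_cast; ring
    have e4 : (∑ x, (l1 (S i x) : ℝ)) ≤ M := by
      rw [hM]; push_cast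
      exact Finset.single_le_sum (f := fun i => ∑ x, (l1 (S i x) : ℝ))
        (fun i _ => Finset.sum_nonneg fun x _ => Nat.cast_nonneg _) (Finset.mem_univ i)
    have e5 : |((S i i).coeff 1 : ℝ)| ≤ M := by
      have h1 := coeff_le_l1 (S i i) 1
      have h2 : ((|(S i i).coeff 1| : ℤ) : ℝ) ≤ ((l1 (S i i) : ℤ) : ℝ) := by exact_mod_cast h1
      rw [Int.cast_abs] at h2
      refine h2.trans (le_trans ?_ e4)
      have h3 := Finset.single_le_sum (f := fun x => (l1 (S i x) : ℝ))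
        (fun x _ => Nat.cast_nonneg _) (Finset.mem_univ i)
      exact_mod_cast h3
    obtain ⟨e6, e7⟩ := abs_le.1 e5
    rw [e1, e3, abs_of_nonneg (by linarith)]
    have e8 : (1 + c) * (-((S i i).coeff 1 : ℝ)) ≤ (1 + c) * M :=
      mul_le_mul_of_nonneg_left (by linarith) (by linarith)
    nlinarith
  · rw [Fintype.sum_sum_type]
    simp only [fromBlocks_apply₂₁, fromBlocks_apply₂₂]
    have e1 : ∑ j, (l1 (adj (xm Γ κ N) p j) : ℝ) = 1 := by
      rw [Finset.sum_eq_single p.1]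
      · rw [adj_apply, l1_bar]; simp [xm, l1_one]
      · intro b _ hb
        rw [adj_apply, l1_bar]
        simp only [xm, Matrix.of_apply, if_neg hb]
        rw [(l1_zero_iff _).2 rfl]; norm_num
      · simp
    have e2 : ∑ q, (l1 ((1 : Matrix (κ × Fin N) (κ × Fin N) (MonoidAlgebra ℤ Γ)) p q) : ℝ)
        = 1 := by
      rw [Finset.sum_eq_single p]
      · rw [Matrix.one_apply_eq, l1_one]; norm_num
      · intro b _ hb
        rw [Matrix.one_apply_ne (Ne.symm hb), (l1_zero_iff _).2 rfl]; norm_num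
      · simp
    have e3 : ((((1 : Matrix (κ × Fin N) (κ × Fin N) (MonoidAlgebra ℤ Γ)) p p).coeff 1 : ℤ) : ℝ)
        = 1 := by
      rw [Matrix.one_apply_eq, MonoidAlgebra.one_def, MonoidAlgebra.coeff_single]
      simp
    rw [e1, e2, e3]
    norm_num
    exact hc.le

end Pool.Agent.R719.DD
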