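import Pool.Agent.R719.DD.Row

set_option autoImplicit false
set_option linter.unusedSectionVars false

/-! Invertible matrices over integral group rings which are diagonally dominant by rows are zero in
`K₁`: elimination. -/

namespace Pool.Agent.R719.DD

open Matrix TH57.Thr TH6.LF TH6.CX Pool.Agent.Y75.Th Pool.Agent.Y35.KC.TTm

variable {Γ : Type} [Group Γ]

theorem l1_neg (x : MonoidAlgebra ℤ Γ) : l1 (-x) = l1 x := by
  classical
  rw [l1_eq (-x) x.coeff.support (by
    intro g hg
    rw [Finsupp.mem_support_iff] at hg ⊢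
    intro h; apply hg; simp [h]), l1_eq x x.coeff.support (Finset.Subset.refl _)]
  exact Finset.sum_congr rfl fun g _ => by simp

theorem l1_single (g : Γ) (n : ℤ) : l1 (MonoidAlgebra.single g n : MonoidAlgebra ℤ Γ) = n.natAbs := by
  classical
  rw [l1_eq _ {g} (by rw [MonoidAlgebra.coeff_single]; exact Finsupp.support_single_subset)]
  simp

theorem l1_single_mul (g : Γ) (n : ℤ) (x : MonoidAlgebra ℤ Γ) :
    l1 (MonoidAlgebra.single g n * x) ≤ n.natAbs * l1 x := by
  classical
  set T := x.coeff.support ∪ ((MonoidAlgebra.single g n * x).coeff.support.image fun h => g⁻¹ * h)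
    with hT
  rw [l1_eq x T Finset.subset_union_left,
    l1_eq (MonoidAlgebra.single g n * x) (T.map (Equiv.mulLeft g).toEmbedding) (by
      intro h hh
      rw [Finset.mem_map]
      refine ⟨g⁻¹ * h, Finset.mem_union_right _ (Finset.mem_image_of_mem _ hh), ?_⟩
      simp), Finset.sum_map, Finset.mul_sum]
  refine Finset.sum_le_sum fun h _ => ?_
  have : (MonoidAlgebra.single g n * x).coeff ((Equiv.mulLeft g).toEmbedding h)
      = n * x.coeff h := by
    rw [MonoidAlgebra.coeff_single_mul_apply]
    simp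
  rw [this, Int.natAbs_mul]

theorem l1_mul_le (x y : MonoidAlgebra ℤ Γ) : l1 (x * y) ≤ l1 x * l1 y := by
  classical
  have key : ∀ s : Finset Γ, ∀ a : Γ → ℤ,
      l1 ((∑ g ∈ s, MonoidAlgebra.single g (a g)) * y) ≤ (∑ g ∈ s, (a g).natAbs) * l1 y := by
    intro s a
    induction s using Finset.induction_on with
    | empty => simp [(l1_zero_iff (0 : MonoidAlgebra ℤ Γ)).2 rfl]
    | insert g s hg ih =>
      rw [Finset.sum_insert hg, Finset.sum_insert hg, add_mul, add_mul]
      exact (l1_add_le _ _).trans (Nat.add_le_add (l1_single_mul _ _ _) ih)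
  have h1 : x = ∑ g ∈ x.coeff.support, MonoidAlgebra.single g (x.coeff g) := by
    ext h
    rw [MonoidAlgebra.coeff_sum, Finsupp.finsetSum_apply]
    simp only [MonoidAlgebra.coeff_single]
    rw [Finset.sum_congr rfl fun g _ => Finsupp.single_apply, Finset.sum_ite_eq']
    by_cases hh : h ∈ x.coeff.support
    · rw [if_pos hh]
    · rw [if_neg hh]; exact Finsupp.notMem_support_iff.1 hh
  conv_lhs => rw [h1]
  exact key _ _

/-- difference with a large diagonal coefficient -/
theorem l1_sub_le (x y : MonoidAlgebra ℤ Γ) (h : |y.coeff 1| ≤ x.coeff 1) :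
    (l1 (x - y) : ℤ) ≤ l1 x + l1 y - |y.coeff 1| - y.coeff 1 := by
  classical
  set T := insert 1 (x.coeff.support ∪ y.coeff.support ∪ (x - y).coeff.support) with hT
  rw [l1_cast x T (by rw [hT]; intro g hg; simp [Finset.mem_insert, hg]),
    l1_cast y T (by rw [hT]; intro g hg; simp [Finset.mem_insert, hg]),
    l1_cast (x - y) T (by
      rw [hT]; exact Finset.subset_union_right.trans (Finset.subset_insert _ _))]
  have h1 : (1 : Γ) ∈ T := by rw [hT]; exact Finset.mem_insert_self _ _
  rw [← Finset.add_sum_erase T _ h1, ← Finset.add_sum_erase T (fun g => |x.coeff g|) h1,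
    ← Finset.add_sum_erase T (fun g => |y.coeff g|) h1]
  have h2 : ∑ g ∈ T.erase 1, |(x - y).coeff g| ≤ ∑ g ∈ T.erase 1, |x.coeff g|
      + ∑ g ∈ T.erase 1, |y.coeff g| := by
    rw [← Finset.sum_add_distrib]
    refine Finset.sum_le_sum fun g _ => ?_
    have : (x - y).coeff g = x.coeff g - y.coeff g := by simp
    rw [this]
    exact abs_sub _ _
  have h3 : (x - y).coeff 1 = x.coeff 1 - y.coeff 1 := by simp
  have h4 := le_abs_self (y.coeff 1)
  have h5 := abs_nonneg (y.coeff 1)
  rw [h3, abs_of_nonneg (by linarith : (0 : ℤ) ≤ x.coeff 1 - y.coeff 1),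
    abs_of_nonneg (by linarith : (0 : ℤ) ≤ x.coeff 1)]
  linarith

/-- the augmentation modulo two -/
theorem aug_two (x : MonoidAlgebra ℤ Γ) : ((augZ x : ℤ) : ZMod 2) = (l1 x : ZMod 2) := by
  classical
  have h1 : augZ x = ∑ g ∈ x.coeff.support, x.coeff g := by
    change MonoidAlgebra.lift ℤ ℤ Γ (1 : Γ →* ℤ) x = _
    rw [MonoidAlgebra.lift_apply, Finsupp.sum]
    exact Finset.sum_congr rfl fun g _ => by simp
  rw [h1, l1]
  push_cast
  refine Finset.sum_congr rfl fun g _ => ?_
  have h2 : ((x.coeff g).natAbs : ZMod 2) = (((x.coeff g).natAbs : ℤ) : ZMod 2) :=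
    (Int.cast_natCast _).symm
  rw [h2, Int.natCast_natAbs]
  rcases abs_choice (x.coeff g) with h8 | h8
  · rw [h8]
  · rw [h8]; push_cast
    rw [ZMod.neg_eq_self_mod_two]

theorem eq_one_of_l1 (x : MonoidAlgebra ℤ Γ) (h1 : x.coeff 1 = 1) (h2 : l1 x ≤ 1) : x = 1 := by
  classical
  have h3 : l1 (x - 1) = 0 := by
    have h4 := l1_sub_le x 1 (by rw [h1]; simp [MonoidAlgebra.one_def])
    have h5 : (1 : MonoidAlgebra ℤ Γ).coeff 1 = 1 := by simp [MonoidAlgebra.one_def]
    rw [h5, l1_one] at h4
    norm_num at h4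
    omega
  exact sub_eq_zero.1 ((l1_zero_iff _).1 h3)

variable {κ : Type} [Fintype κ] [DecidableEq κ]

/-- the diagonal entry of a row with diagonal coefficient one -/
theorem diag_entry (A : (Matrix κ κ (MonoidAlgebra ℤ Γ))ˣ) (hA : DDom A.val) (i : κ)
    (hi : (A.val i i).coeff 1 = 1) :
    A.val i i = 1 ∧ ∑ j ∈ Finset.univ.erase i, l1 (A.val i j) ≤ 1 := by
  classical
  have h1 := hA i
  rw [hi, ← Finset.add_sum_erase Finset.univ _ (Finset.mem_univ i)] at h1
  have h2 := coeff_le_l1 (A.val i i) 1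
  rw [hi, abs_one] at h2
  have h0 : (0 : ℤ) ≤ ∑ j ∈ Finset.univ.erase i, (l1 (A.val i j) : ℤ) :=
    Finset.sum_nonneg fun _ _ => Nat.cast_nonneg _
  have h3 : l1 (A.val i i) ≤ 1 := by
    by_contra h4
    have h5 : (l1 (A.val i i) : ℤ) = 2 := by omega
    have h6 : ∑ j ∈ Finset.univ.erase i, (l1 (A.val i j) : ℤ) = 0 := by omega
    have h7 : ∀ j, j ≠ i → A.val i j = 0 := by
      intro j hj
      have h8 := (Finset.sum_eq_zero_iff_of_nonneg (fun _ _ => Nat.cast_nonneg _)).1 h6 j
        (Finset.mem_erase.2 ⟨hj, Finset.mem_univ _⟩)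
      exact (l1_zero_iff _).1 (by exact_mod_cast h8)
    have h8 := congrFun (congrFun A.mul_inv i) i
    rw [Matrix.mul_apply, Matrix.one_apply_eq, Finset.sum_eq_single i
      (fun j _ hj => by rw [h7 j hj, zero_mul]) (by simp)] at h8
    have h9 := congrArg (fun x => ((augZ x : ℤ) : ZMod 2)) h8
    simp only [map_mul, map_one, Int.cast_mul, Int.cast_one] at h9
    rw [aug_two (A.val i i)] at h9
    have h10 : (l1 (A.val i i) : ZMod 2) = 0 := by
      have : l1 (A.val i i) = 2 := by exact_mod_cast h5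
      rw [this]; rfl
    rw [h10, zero_mul] at h9
    exact absurd h9 (by decide)
  refine ⟨eq_one_of_l1 _ hi h3, ?_⟩
  have h4 : (∑ j ∈ Finset.univ.erase i, (l1 (A.val i j) : ℤ)) ≤ 1 := by omega
  exact_mod_cast h4

/-- the Schur complement is dominant -/
theorem schur_dom (A : Matrix κ κ (MonoidAlgebra ℤ Γ)) (hA : DDom A) (i : κ)
    (hi2 : ∑ j ∈ Finset.univ.erase i, l1 (A i j) ≤ 1) (k : κ) (hk : k ≠ i) :
    ∑ j ∈ Finset.univ.erase i, (l1 (A k j - A k i * A i j) : ℤ)
      ≤ 2 * (A k k - A k i * A i k).coeff 1 := by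
  classical
  set t := (A k i * A i k).coeff 1 with ht
  have hkm : k ∈ Finset.univ.erase i := Finset.mem_erase.2 ⟨hk, Finset.mem_univ _⟩
  have h1 := hA k
  rw [← Finset.add_sum_erase Finset.univ _ (Finset.mem_univ i),
    ← Finset.add_sum_erase (Finset.univ.erase i) _ hkm] at h1
  have h2 := coeff_le_l1 (A k k) 1
  have h2' := le_abs_self ((A k k).coeff 1)
  have h0 : (0 : ℤ) ≤ ∑ j ∈ (Finset.univ.erase i).erase k, (l1 (A k j) : ℤ) :=
    Finset.sum_nonneg fun _ _ => Nat.cast_nonneg _
  have h3 : (l1 (A i k) : ℤ) ≤ 1 := by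
    have := Finset.single_le_sum (f := fun j => l1 (A i j)) (fun _ _ => Nat.zero_le _) hkm
    exact_mod_cast this.trans hi2
  have h4 : |t| ≤ (l1 (A k i) : ℤ) := by
    have e1 := coeff_le_l1 (A k i * A i k) 1
    have e2 := l1_mul_le (A k i) (A i k)
    have e3 : (l1 (A k i * A i k) : ℤ) ≤ l1 (A k i) * l1 (A i k) := by exact_mod_cast e2
    have e4 : (0 : ℤ) ≤ l1 (A k i) := Nat.cast_nonneg _
    have e5 : (l1 (A k i) : ℤ) * l1 (A i k) ≤ l1 (A k i) * 1 :=
      mul_le_mul_of_nonneg_left h3 e4
    linarith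
  have h5 : |t| ≤ (A k k).coeff 1 := by linarith
  have h6 := l1_sub_le (A k k) (A k i * A i k) h5
  rw [← ht] at h6
  have h7 : (l1 (A k i * A i k) : ℤ) ≤ l1 (A k i) * l1 (A i k) := by
    exact_mod_cast l1_mul_le _ _
  rw [← Finset.add_sum_erase (Finset.univ.erase i) _ hkm]
  have h8 : ∀ j ∈ (Finset.univ.erase i).erase k, (l1 (A k j - A k i * A i j) : ℤ)
      ≤ l1 (A k j) + l1 (A k i) * l1 (A i j) := by
    intro j _
    have e1 := l1_add_le (A k j) (-(A k i * A i j))
    rw [l1_neg, ← sub_eq_add_neg] at e1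
    have e2 := l1_mul_le (A k i) (A i j)
    exact_mod_cast e1.trans (Nat.add_le_add_left e2 _)
  have h9 := Finset.sum_le_sum h8
  rw [Finset.sum_add_distrib, ← Finset.mul_sum] at h9
  have h10 : (l1 (A i k) : ℤ) + ∑ j ∈ (Finset.univ.erase i).erase k, (l1 (A i j) : ℤ) ≤ 1 := by
    rw [Finset.add_sum_erase (Finset.univ.erase i) (fun j => (l1 (A i j) : ℤ)) hkm]
    exact_mod_cast hi2
  have h11 : (A k k - A k i * A i k).coeff 1 = (A k k).coeff 1 - t := by
    rw [ht]; simp
  rw [h11]
  have h12 : (l1 (A k i) : ℤ) * ((l1 (A i k) : ℤ)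
      + ∑ j ∈ (Finset.univ.erase i).erase k, (l1 (A i j) : ℤ)) ≤ l1 (A k i) * 1 :=
    mul_le_mul_of_nonneg_left h10 (Nat.cast_nonneg _)
  have h13 := le_abs_self t
  rw [mul_add] at h12
  linarith

/-- **Main theorem.** Invertible matrices which are diagonally dominant by rows are zero in `K₁`. -/
theorem TT_rowdom (U : Subgroup (MonoidAlgebra ℤ Γ)ˣ) : ∀ (n : ℕ) (κ : Type) [Fintype κ]
    [DecidableEq κ], Fintype.card κ = n →
    ∀ A : (Matrix κ κ (MonoidAlgebra ℤ Γ))ˣ, DDom A.val → TT U A := by
  intro n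
  induction n with
  | zero =>
    intro κ _ _ hκ A _
    have := Fintype.card_eq_zero_iff.1 hκ
    have : A = 1 := Units.ext (by ext1 i; exact isEmptyElim i)
    rw [this]; exact TT_one U
  | succ n ih =>
    intro κ _ _ hκ A hA
    classical
    have : Nonempty κ := Fintype.card_pos_iff.1 (by omega)
    obtain ⟨i, hi⟩ := exists_diag_one A hA
    obtain ⟨h1, h2⟩ := diag_entry A hA i hi
    let Z : Matrix κ κ (MonoidAlgebra ℤ Γ) := fun k j => if k = i ∧ j ≠ i then -A.val i j else 0
    obtain ⟨E, hE1, hE2⟩ := El_unit (1 + Z) (el_unip {i} Z (by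
      intro k j h
      by_cases hh : k = i ∧ j ≠ i
      · exact ⟨Finset.mem_singleton.2 hh.1, fun h3 => hh.2 (Finset.mem_singleton.1 h3)⟩
      · exact absurd (if_neg hh) h))
    have hB : ∀ k j, (A * E).val k j = if j = i then A.val k i
        else A.val k j - A.val k i * A.val i j := by
      intro k j
      rw [Units.val_mul, hE1, Matrix.mul_add, Matrix.mul_one, Matrix.add_apply, Matrix.mul_apply]
      by_cases hj : j = i
      · rw [if_pos hj, Finset.sum_eq_zero fun l _ => ?_, add_zero, hj]
        simp only [Z]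
        rw [if_neg (fun h => h.2 hj), mul_zero]
      · rw [if_neg hj, Finset.sum_eq_single i]
        · rw [show Z i j = -A.val i j from if_pos ⟨rfl, hj⟩, mul_neg, sub_eq_add_neg]
        · intro l _ hl
          simp only [Z]
          rw [if_neg (fun h => hl h.1), mul_zero]
        · simp
    set B := A * E with hBdef
    have hBi : ∀ j, B.val i j = if j = i then 1 else 0 := by
      intro j
      rw [hB i j, h1]
      by_cases hj : j = i
      · rw [if_pos hj, if_pos hj]
      · rw [if_neg hj, if_neg hj, one_mul, sub_self]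
    have hBi' : ∀ j, B⁻¹.val i j = if j = i then 1 else 0 := by
      intro j
      have h3 := congrFun (congrFun B.mul_inv i) j
      rw [Matrix.mul_apply, Finset.sum_eq_single i (fun l _ hl => by
        rw [hBi l, if_neg hl, zero_mul]) (by simp), hBi i, if_pos rfl, one_mul] at h3
      rw [h3, Matrix.one_apply]
      by_cases hj : j = i
      · rw [if_pos hj, if_pos hj.symm]
      · rw [if_neg hj, if_neg (Ne.symm hj)]
    let C : (Matrix {k // ¬ k = i} {k // ¬ k = i} (MonoidAlgebra ℤ Γ))ˣ :=
      { val := B.val.submatrix Subtype.val Subtype.val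
        inv := B⁻¹.val.submatrix Subtype.val Subtype.val
        val_inv := by
          ext1 k j
          rw [Matrix.mul_apply]
          simp only [Matrix.submatrix_apply]
          have h3 := congrFun (congrFun B.mul_inv k.1) j.1
          rw [Matrix.mul_apply, ← Finset.add_sum_erase _ _ (Finset.mem_univ i), hBi' j.1,
            if_neg j.2, mul_zero, zero_add, Finset.sum_subtype (Finset.univ.erase i)
            (p := fun k => ¬ k = i) (by simp)] at h3
          rw [h3, Matrix.one_apply, Matrix.one_apply]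
          simp only [Subtype.ext_iff]
        inv_val := by
          ext1 k j
          rw [Matrix.mul_apply]
          simp only [Matrix.submatrix_apply]
          have h3 := congrFun (congrFun B.inv_mul k.1) j.1
          rw [Matrix.mul_apply, ← Finset.add_sum_erase _ _ (Finset.mem_univ i), hBi j.1,
            if_neg j.2, mul_zero, zero_add, Finset.sum_subtype (Finset.univ.erase i)
            (p := fun k => ¬ k = i) (by simp)] at h3
          rw [h3, Matrix.one_apply, Matrix.one_apply]
          simp only [Subtype.ext_iff] }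
    have hC : TT U C := by
      apply ih {k // ¬ k = i} (by
        rw [Fintype.card_subtype_compl, hκ, Fintype.card_subtype_eq]; rfl)
      intro k
      have h3 := schur_dom A.val hA i h2 k.1 k.2
      rw [Finset.sum_subtype (Finset.univ.erase i) (p := fun k => ¬ k = i) (by simp)] at h3
      have h4 : ∀ j : {k // ¬ k = i}, C.val k j = A.val k j - A.val k i * A.val i j := by
        intro j
        change B.val k.1 j.1 = _
        rw [hB, if_neg j.2]
      simp only [h4]
      exact h3
    let e := Equiv.sumCompl (fun k => k = i)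
    have h5 : TT U (Units.map (re e) B) := by
      refine TT_tri U 1 C (fun k j => B.val k.1 j.1) _ ?_ (TT_one U) hC
      ext1 k j
      rcases k with k | k <;> rcases j with j | j
      · change B.val k.1 j.1 = (1 : Matrix _ _ (MonoidAlgebra ℤ Γ)) k j
        rw [k.2, hBi, if_pos j.2, Matrix.one_apply, if_pos (Subtype.ext (k.2.trans j.2.symm))]
      · change B.val k.1 j.1 = 0
        rw [k.2, hBi, if_neg j.2]
      · rfl
      · rfl
    have h6 : TT U B := by
      have h7 := TT_re U e.symm _ h5
      convert h7 using 1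
      apply Units.ext
      ext1 k j
      simp [re]
    have h7 : A = B * E⁻¹ := by rw [hBdef, mul_inv_cancel_right]
    rw [h7]
    exact TT_mul U _ _ h6 (TT_inv U _ (hE2 U))

end Pool.Agent.R719.DD
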