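import Pool.Agent.R719.DD.Pres
import Pool.Agent.TH57.TT2.Long6
import Pool.Agent.TH57.FF.Bd

set_option autoImplicit false
set_option linter.unusedSectionVars false

/-! Groups with a dominant boundary matrix. -/

namespace Pool.Agent.R719.DD

open Matrix TH57.Thr TH57.FF TH57.TT2 TH6.LF

variable {G : Type} [Group G]

theorem FR_of_RB {m k : ℕ} (A : Matrix (Fin m) (Fin k) (MonoidAlgebra ℤ G)) (h : RB A) :
    FR (MonoidAlgebra ℤ G) 0 (Im A) := by
  have h1 := free_of_RB A h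
  exact ⟨inferInstance, h1⟩

theorem Bd_core (n : ℕ) {m k m' k' : ℕ} (A : Matrix (Fin m) (Fin k) (MonoidAlgebra ℤ G))
    (A' : Matrix (Fin m') (Fin k') (MonoidAlgebra ℤ G))
    (T : Matrix (Fin k') (Fin k) (MonoidAlgebra ℤ G))
    (S : Matrix (Fin k) (Fin k') (MonoidAlgebra ℤ G)) (hST : S * T = 1)
    (hT : ∀ v : Fin k' → MonoidAlgebra ℤ G,
      (∃ y : Fin m → MonoidAlgebra ℤ G, y ᵥ* A = v ᵥ* T) ↔
        ∃ y : Fin m' → MonoidAlgebra ℤ G, y ᵥ* A' = v) (h : Bd G n A) : Bd G n A' := by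
  cases n with
  | zero =>
    obtain ⟨ε, h1, h2, h3⟩ := h
    refine ⟨ε.comp T.vecMulLinear.toAddMonoidHom, ?_, ?_, ?_⟩
    · intro g x
      change ε ((MonoidAlgebra.of ℤ G g • x) ᵥ* T) = ε (x ᵥ* T)
      rw [Matrix.smul_vecMul, h1]
    · intro z
      obtain ⟨x, hx⟩ := h2 z
      refine ⟨x ᵥ* S, ?_⟩
      change ε ((x ᵥ* S) ᵥ* T) = z
      rw [Matrix.vecMul_vecMul, hST, Matrix.vecMul_one, hx]
    · intro x
      change ε (x ᵥ* T) = 0 ↔ _
      rw [h3, hT]
  | succ n =>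
    obtain ⟨l, B, h1, h2⟩ := h
    refine ⟨l, T * B, ?_, fun x => ?_⟩
    · apply Bd_range n B _ _ h1
      intro x
      constructor
      · rintro ⟨y, rfl⟩
        refine ⟨y ᵥ* S, ?_⟩
        rw [← Matrix.vecMul_vecMul, Matrix.vecMul_vecMul y, hST, Matrix.vecMul_one]
      · rintro ⟨y, rfl⟩
        exact ⟨y ᵥ* T, Matrix.vecMul_vecMul _ _ _⟩
    · rw [← Matrix.vecMul_vecMul, h2, hT]

/-- adding columns of zeros -/
theorem Bd_cols (n : ℕ) {m k : ℕ} (A : Matrix (Fin m) (Fin k) (MonoidAlgebra ℤ G)) (a : ℕ)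
    (h : Bd G (n + 1) A) :
    Bd G (n + 1) ((fromCols A (0 : Matrix (Fin m) (Fin a) (MonoidAlgebra ℤ G))).submatrix id
      (finSumFinEquiv.symm : Fin (k + a) ≃ Fin k ⊕ Fin a)) := by
  obtain ⟨l, B, h1, h2⟩ := h
  let B' : Matrix (Fin (k + a)) (Fin (l + a)) (MonoidAlgebra ℤ G) :=
    (fromBlocks B 0 0 1).submatrix (finSumFinEquiv.symm : Fin (k + a) ≃ Fin k ⊕ Fin a)
      (finSumFinEquiv.symm : Fin (l + a) ≃ Fin l ⊕ Fin a)
  have hB' : ∀ x : Fin (k + a) → MonoidAlgebra ℤ G, x ᵥ* B' =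
      (Sum.elim ((x ∘ finSumFinEquiv ∘ Sum.inl) ᵥ* B) (x ∘ finSumFinEquiv ∘ Sum.inr)) ∘
        (finSumFinEquiv.symm : Fin (l + a) ≃ Fin l ⊕ Fin a) := by
    intro x
    rw [vecMul_submatrix_equiv, Matrix.vecMul_fromBlocks]
    simp only [Matrix.vecMul_zero, Matrix.vecMul_one, add_zero, zero_add]
    rfl
  refine ⟨l + a, B', ?_, ?_⟩
  · cases n with
    | zero =>
      obtain ⟨ε, g1, g2, g3⟩ := h1
      refine ⟨ε.comp (LinearMap.funLeft (MonoidAlgebra ℤ G) (MonoidAlgebra ℤ G)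
        (fun i : Fin l => finSumFinEquiv (Sum.inl i) : Fin l → Fin (l + a))).toAddMonoidHom,
        ?_, ?_, ?_⟩
      · intro g x
        exact g1 g (fun i => x (finSumFinEquiv (Sum.inl i)))
      · intro z
        obtain ⟨x, hx⟩ := g2 z
        refine ⟨(Sum.elim x 0) ∘ finSumFinEquiv.symm, ?_⟩
        rw [← hx]
        change ε _ = ε x
        congr 1
        funext i
        simp [LinearMap.funLeft]
      · intro x
        change ε (fun i => x (finSumFinEquiv (Sum.inl i))) = 0 ↔ _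
        rw [g3]
        constructor
        · rintro ⟨y, hy⟩
          refine ⟨(Sum.elim y (x ∘ finSumFinEquiv ∘ Sum.inr)) ∘ finSumFinEquiv.symm, ?_⟩
          rw [hB']
          have e1 : ((Sum.elim y (x ∘ finSumFinEquiv ∘ Sum.inr)) ∘ finSumFinEquiv.symm) ∘
              (finSumFinEquiv : Fin k ⊕ Fin a ≃ Fin (k + a)) ∘ Sum.inl = y := by
            funext i; simp
          have e2 : ((Sum.elim y (x ∘ finSumFinEquiv ∘ Sum.inr)) ∘ finSumFinEquiv.symm) ∘
              (finSumFinEquiv : Fin k ⊕ Fin a ≃ Fin (k + a)) ∘ Sum.inr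
              = x ∘ finSumFinEquiv ∘ Sum.inr := by
            funext i; simp
          rw [e1, e2, hy]
          funext i
          obtain ⟨j, rfl⟩ := finSumFinEquiv.surjective i
          rcases j with j | j
          · simp
          · simp
        · rintro ⟨y, hy⟩
          refine ⟨y ∘ finSumFinEquiv ∘ Sum.inl, ?_⟩
          rw [hB'] at hy
          funext i
          have := congrFun hy (finSumFinEquiv (Sum.inl i))
          simpa using this
    | succ n =>
      obtain ⟨l2, C, g1, g2⟩ := h1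
      refine ⟨l2, (fromRows C 0).submatrix (finSumFinEquiv.symm : Fin (l + a) ≃ Fin l ⊕ Fin a) id,
        ?_, ?_⟩
      · apply Bd_range n C _ _ g1
        intro x
        constructor
        · rintro ⟨y, rfl⟩
          refine ⟨(Sum.elim y 0) ∘ finSumFinEquiv.symm, ?_⟩
          have := vecMul_submatrix_equiv (finSumFinEquiv.symm : Fin (l + a) ≃ Fin l ⊕ Fin a)
            (Equiv.refl (Fin l2)) (fromRows C (0 : Matrix (Fin a) (Fin l2) (MonoidAlgebra ℤ G)))
            ((Sum.elim y 0) ∘ finSumFinEquiv.symm)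
          refine this.trans ?_
          have e1 : ((Sum.elim y (0 : Fin a → MonoidAlgebra ℤ G)) ∘ finSumFinEquiv.symm) ∘
              (finSumFinEquiv.symm : Fin (l + a) ≃ Fin l ⊕ Fin a).symm = Sum.elim y 0 := by
            funext i; simp
          rw [e1, Matrix.vecMul_fromRows]
          simp
        · rintro ⟨y, rfl⟩
          refine ⟨y ∘ finSumFinEquiv ∘ Sum.inl, ?_⟩
          have := vecMul_submatrix_equiv (finSumFinEquiv.symm : Fin (l + a) ≃ Fin l ⊕ Fin a)
            (Equiv.refl (Fin l2)) (fromRows C (0 : Matrix (Fin a) (Fin l2) (MonoidAlgebra ℤ G)))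
            y
          refine Eq.trans ?_ this.symm
          rw [Matrix.vecMul_fromRows]
          simp
          rfl
      · intro x
        have := vecMul_submatrix_equiv (finSumFinEquiv.symm : Fin (l + a) ≃ Fin l ⊕ Fin a)
            (Equiv.refl (Fin l2)) (fromRows C (0 : Matrix (Fin a) (Fin l2) (MonoidAlgebra ℤ G)))
            x
        have e0 : x ᵥ* (fromRows C (0 : Matrix (Fin a) (Fin l2) (MonoidAlgebra ℤ G))).submatrix
            (finSumFinEquiv.symm : Fin (l + a) ≃ Fin l ⊕ Fin a) id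
            = (x ∘ finSumFinEquiv ∘ Sum.inl) ᵥ* C := by
          refine this.trans ?_
          rw [Matrix.vecMul_fromRows]
          simp
          rfl
        rw [e0, g2]
        constructor
        · rintro ⟨y, hy⟩
          refine ⟨(Sum.elim y (x ∘ finSumFinEquiv ∘ Sum.inr)) ∘ finSumFinEquiv.symm, ?_⟩
          rw [hB']
          have e1 : ((Sum.elim y (x ∘ finSumFinEquiv ∘ Sum.inr)) ∘ finSumFinEquiv.symm) ∘
              (finSumFinEquiv : Fin k ⊕ Fin a ≃ Fin (k + a)) ∘ Sum.inl = y := by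
            funext i; simp
          have e2 : ((Sum.elim y (x ∘ finSumFinEquiv ∘ Sum.inr)) ∘ finSumFinEquiv.symm) ∘
              (finSumFinEquiv : Fin k ⊕ Fin a ≃ Fin (k + a)) ∘ Sum.inr
              = x ∘ finSumFinEquiv ∘ Sum.inr := by
            funext i; simp
          rw [e1, e2, hy]
          funext i
          obtain ⟨j, rfl⟩ := finSumFinEquiv.surjective i
          rcases j with j | j
          · simp
          · simp
        · rintro ⟨y, hy⟩
          refine ⟨y ∘ finSumFinEquiv ∘ Sum.inl, ?_⟩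
          rw [hB'] at hy
          funext i
          have := congrFun hy (finSumFinEquiv (Sum.inl i))
          simpa using this
  · intro x
    rw [hB']
    have hA' : ∀ y : Fin m → MonoidAlgebra ℤ G,
        y ᵥ* (fromCols A (0 : Matrix (Fin m) (Fin a) (MonoidAlgebra ℤ G))).submatrix id
          (finSumFinEquiv.symm : Fin (k + a) ≃ Fin k ⊕ Fin a)
        = (Sum.elim (y ᵥ* A) 0) ∘ finSumFinEquiv.symm := by
      intro y
      funext j
      obtain ⟨i, rfl⟩ := finSumFinEquiv.surjective j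
      rcases i with i | i
      · simp [Matrix.vecMul, dotProduct]
      · simp [Matrix.vecMul, dotProduct]
    constructor
    · intro hx
      have e1 : (x ∘ finSumFinEquiv ∘ Sum.inl) ᵥ* B = 0 := by
        funext i
        have := congrFun hx (finSumFinEquiv (Sum.inl i))
        simpa using this
      obtain ⟨y, hy⟩ := (h2 _).1 e1
      refine ⟨y, ?_⟩
      rw [hA', hy]
      funext j
      obtain ⟨i, rfl⟩ := finSumFinEquiv.surjective j
      rcases i with i | i
      · simp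
      · have := congrFun hx (finSumFinEquiv (Sum.inr i))
        simp only [Function.comp_apply, Equiv.symm_apply_apply, Sum.elim_inr] at this ⊢
        exact this.symm
    · rintro ⟨y, rfl⟩
      have e1 : (y ᵥ* (fromCols A (0 : Matrix (Fin m) (Fin a) (MonoidAlgebra ℤ G))).submatrix id
          (finSumFinEquiv.symm : Fin (k + a) ≃ Fin k ⊕ Fin a)) ∘ finSumFinEquiv ∘ Sum.inl
          = y ᵥ* A := by
        rw [hA']; funext i; simp
      rw [e1, (h2 _).2 ⟨y, rfl⟩, hA']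
      funext j
      obtain ⟨i, rfl⟩ := finSumFinEquiv.surjective j
      rcases i with i | i
      · simp
      · simp

/-- dominance with a factor -/
def DomC {κ : Type} [Fintype κ] (c : ℝ) (S : Matrix κ κ (MonoidAlgebra ℤ G)) : Prop :=
  ∀ i, (∑ j, (Pool.Agent.Y35.KC.TTm.l1 (S i j) : ℝ)) - |((S i i).coeff 1 : ℝ)|
    ≤ c * ((S i i).coeff 1 : ℝ)

theorem mem_stab {R : Type} [Ring R] {κ μ : Type} [Fintype κ] [DecidableEq κ] [Fintype μ]
    [DecidableEq μ] (A : Matrix κ κ R) (P Q : (Matrix (κ ⊕ μ) (κ ⊕ μ) R)ˣ) (w : κ ⊕ μ → R) :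
    (∃ y : κ → R, y ᵥ* A = (w ᵥ* Q⁻¹.val) ∘ Sum.inl) ↔
      ∃ y : κ ⊕ μ → R, y ᵥ* (P.val * fromBlocks A 0 0 1 * Q.val) = w := by
  constructor
  · rintro ⟨y, hy⟩
    refine ⟨(Sum.elim y ((w ᵥ* Q⁻¹.val) ∘ Sum.inr)) ᵥ* P⁻¹.val, ?_⟩
    rw [← Matrix.vecMul_vecMul, ← Matrix.vecMul_vecMul,
      Matrix.vecMul_vecMul _ P⁻¹.val, P.inv_mul, Matrix.vecMul_one, Matrix.vecMul_fromBlocks]
    simp only [Matrix.vecMul_zero, Matrix.vecMul_one, add_zero, zero_add, Sum.elim_comp_inl,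
      Sum.elim_comp_inr, hy]
    rw [Sum.elim_comp_inl_inr, Matrix.vecMul_vecMul, Q.inv_mul, Matrix.vecMul_one]
  · rintro ⟨y, hy⟩
    refine ⟨(y ᵥ* P.val) ∘ Sum.inl, ?_⟩
    rw [← hy, Matrix.vecMul_vecMul, Matrix.mul_assoc, Q.mul_inv,
      Matrix.mul_one, ← Matrix.vecMul_vecMul, Matrix.vecMul_fromBlocks]
    simp

theorem Bd_square (n : ℕ) {m k : ℕ} (A : Matrix (Fin m) (Fin k) (MonoidAlgebra ℤ G))
    (h : Bd G (n + 1) A) : ∃ (N : ℕ) (A' : Matrix (Fin N) (Fin N) (MonoidAlgebra ℤ G)),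
      Bd G (n + 1) A' := by
  have h1 := Bd_cols n A m h
  set A1 := (fromCols A (0 : Matrix (Fin m) (Fin m) (MonoidAlgebra ℤ G))).submatrix id
      (finSumFinEquiv.symm : Fin (k + m) ≃ Fin k ⊕ Fin m) with hA1
  refine ⟨k + m, (fromRows (0 : Matrix (Fin k) (Fin (k + m)) (MonoidAlgebra ℤ G)) A1).submatrix
    (finSumFinEquiv.symm : Fin (k + m) ≃ Fin k ⊕ Fin m) (Equiv.refl _),
    Bd_core (n + 1) A1 _ 1 1 (Matrix.mul_one _) (fun v => ?_) h1⟩
  have e0 : ∀ y : Fin (k + m) → MonoidAlgebra ℤ G,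
      y ᵥ* (fromRows (0 : Matrix (Fin k) (Fin (k + m)) (MonoidAlgebra ℤ G)) A1).submatrix
        (finSumFinEquiv.symm : Fin (k + m) ≃ Fin k ⊕ Fin m) (Equiv.refl _)
      = (y ∘ finSumFinEquiv ∘ Sum.inr) ᵥ* A1 := by
    intro y
    rw [vecMul_submatrix_equiv, Matrix.vecMul_fromRows, Matrix.vecMul_zero, zero_add]
    rfl
  rw [Matrix.vecMul_one]
  constructor
  · rintro ⟨y, hy⟩
    refine ⟨(Sum.elim 0 y) ∘ finSumFinEquiv.symm, ?_⟩
    rw [e0, ← hy]
    congr 1
    funext i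
    simp
  · rintro ⟨y, hy⟩
    exact ⟨_, (e0 y).symm.trans hy⟩

theorem Bd_dom (n : ℕ) {m k : ℕ} (A0 : Matrix (Fin m) (Fin k) (MonoidAlgebra ℤ G))
    (h0 : Bd G (n + 1) A0) (c : ℝ) (hc : 1 < c) :
    ∃ (N : ℕ) (A' : Matrix (Fin N) (Fin N) (MonoidAlgebra ℤ G)),
      Bd G (n + 1) A' ∧ DomC c A' ∧ DomC c A'ᵀ := by
  obtain ⟨q, A, h⟩ := Bd_square n A0 h0
  obtain ⟨N₁, h1⟩ := dom_stab c hc A
  obtain ⟨N₂, h2⟩ := dom_stab c hc (adj A)
  set N := max N₁ N₂ with hN
  let U := pm G (Fin q) N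
  let V : (Matrix (Fin q ⊕ Fin q × Fin N) (Fin q ⊕ Fin q × Fin N) (MonoidAlgebra ℤ G))ˣ :=
    ⟨adj U.val, adj U⁻¹.val, by rw [← adj_mul, U.inv_mul, adj_one],
      by rw [← adj_mul, U.mul_inv, adj_one]⟩
  have hst := mem_stab A U V
  set B := U.val * fromBlocks A 0 0 1 * V.val with hB
  have h3 : DomC c B := by
    have := h1 N (le_max_left _ _)
    rw [← pm_mul] at this
    exact this
  have h4 : DomC c Bᵀ := by
    have h5 := h2 N (le_max_right _ _)
    have h6 : adj B = (pm G (Fin q) N).val * fromBlocks (adj A) 0 0 1 *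
        adj (pm G (Fin q) N).val := by
      change adj (U.val * fromBlocks A 0 0 1 * adj U.val) = _
      rw [adj_mul, adj_mul, adj_adj, adj_fromBlocks, adj_zero, adj_zero, adj_one,
        Matrix.mul_assoc]
    rw [← pm_mul, ← h6] at h5
    intro i
    have h7 := h5 i
    have h8 : ∀ j, (Pool.Agent.Y35.KC.TTm.l1 (Bᵀ i j) : ℝ)
        = (Pool.Agent.Y35.KC.TTm.l1 (adj B i j) : ℝ) := by
      intro j
      rw [adj_apply, l1_bar]; rfl
    have h9 : ((Bᵀ i i).coeff 1 : ℝ) = ((adj B i i).coeff 1 : ℝ) := by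
      rw [adj_apply, coeff_bar, inv_one]; rfl
    rw [h9, Finset.sum_congr rfl fun j _ => h8 j]
    exact h7
  let ee : Fin (Fintype.card (Fin q ⊕ Fin q × Fin N)) ≃ (Fin q ⊕ Fin q × Fin N) :=
    (Fintype.equivFin _).symm
  refine ⟨_, B.submatrix ee ee, ?_, ?_, ?_⟩
  · let J : Matrix (Fin q ⊕ Fin q × Fin N) (Fin q) (MonoidAlgebra ℤ G) := fromRows 1 0
    let J' : Matrix (Fin q) (Fin q ⊕ Fin q × Fin N) (MonoidAlgebra ℤ G) := fromCols 1 0
    have hJ : J' * J = 1 := by
      rw [Matrix.fromCols_mul_fromRows]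
      simp
    have hvJ : ∀ w : Fin q ⊕ Fin q × Fin N → MonoidAlgebra ℤ G, w ᵥ* J = w ∘ Sum.inl := by
      intro w
      rw [Matrix.vecMul_fromRows, Matrix.vecMul_one, Matrix.vecMul_zero, add_zero]
    refine Bd_core (n + 1) A _ ((V⁻¹.val * J).submatrix ee (Equiv.refl _))
      ((J' * V.val).submatrix (Equiv.refl _) ee) ?_ (fun v => ?_) h
    · rw [Matrix.submatrix_mul_equiv]
      have : J' * V.val * (V⁻¹.val * J) = 1 := by
        rw [Matrix.mul_assoc, ← Matrix.mul_assoc V.val, V.mul_inv, Matrix.one_mul, hJ]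
      rw [this]
      rfl
    · have e1 : v ᵥ* (V⁻¹.val * J).submatrix ee (Equiv.refl _)
          = ((v ∘ ee.symm) ᵥ* V⁻¹.val) ∘ Sum.inl := by
        rw [vecMul_submatrix_equiv, ← Matrix.vecMul_vecMul, hvJ]
        rfl
      rw [e1, hst]
      constructor
      · rintro ⟨y, hy⟩
        refine ⟨y ∘ ee, ?_⟩
        rw [vecMul_submatrix_equiv]
        have : (y ∘ ee) ∘ ee.symm = y := by funext i; simp
        rw [this, hy]
        funext i; simp
      · rintro ⟨y, hy⟩
        refine ⟨y ∘ ee.symm, ?_⟩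
        rw [vecMul_submatrix_equiv] at hy
        rw [← hy]
        funext i; simp
  · intro i
    have := h3 (ee i)
    rw [← Equiv.sum_comp ee] at this
    exact this
  · intro i
    have := h4 (ee i)
    rw [← Equiv.sum_comp ee] at this
    exact this

end Pool.Agent.R719.DD
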