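import Pool.Agent.R719.DD.Herm

set_option autoImplicit false
set_option linter.unusedSectionVars false

/-! Factorisation of invertible diagonally dominant hermitian matrices. -/

namespace Pool.Agent.R719.DD

open Matrix TH57.Thr TH6.LF TH6.CX Pool.Agent.Y75.Th Pool.Agent.Y35.KC.TTm

variable {Γ : Type} [Group Γ] {κ : Type} [Fintype κ] [DecidableEq κ]

/-- a self-adjoint idempotent matrix over an integral group ring with a zero diagonal coefficient
has a zero row; otherwise the row is the row of the identity matrix -/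
theorem proj_row {μ : Type} [Fintype μ] [DecidableEq μ] (E : Matrix μ μ (MonoidAlgebra ℤ Γ))
    (h1 : E * E = E) (h2 : adj E = E) (f : μ) :
    (∀ k, E f k = 0) ∨ ((∀ k, k ≠ f → E f k = 0) ∧ E f f = 1) := by
  classical
  have h3 : (E f f).coeff 1 = ∑ k, nsq (E f k) := by
    conv_lhs => rw [← h1]
    conv_lhs => rw [show E * E = E * adj E by rw [h2]]
    rw [Matrix.mul_apply, MonoidAlgebra.coeff_sum, Finsupp.finsetSum_apply]
    refine Finset.sum_congr rfl fun k _ => ?_
    rw [adj_apply, coeff_mul_bar_one _ _ _ (Finset.Subset.refl _),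
      nsq_eq _ _ (Finset.Subset.refl _)]
    exact Finset.sum_congr rfl fun g _ => by ring
  have h4 : nsq (E f f) ≤ ∑ k, nsq (E f k) :=
    Finset.single_le_sum (f := fun k => nsq (E f k)) (fun _ _ => nsq_nonneg _) (Finset.mem_univ f)
  have h5 := coeff_sq_le (E f f) 1
  have h6 : 0 ≤ ∑ k, nsq (E f k) := Finset.sum_nonneg fun _ _ => nsq_nonneg _
  rw [← h3] at h4 h6
  have h7 : (E f f).coeff 1 ≤ 1 := by nlinarith
  rcases (by omega : (E f f).coeff 1 = 0 ∨ (E f f).coeff 1 = 1) with h8 | h8
  · left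
    intro k
    rw [h8] at h3
    exact nsq_eq_zero ((Finset.sum_eq_zero_iff_of_nonneg (fun k _ => nsq_nonneg _)).1 h3.symm k
      (Finset.mem_univ k))
  · right
    rw [h8] at h3 h5
    have h9 : nsq (E f f) = 1 := by
      rw [h8] at h4
      omega
    refine ⟨fun k hk => ?_, ?_⟩
    · have h10 : nsq (E f f) + nsq (E f k) ≤ ∑ k, nsq (E f k) := by
        have h11 : ({f, k} : Finset μ) ⊆ Finset.univ := Finset.subset_univ _
        have h12 := Finset.sum_le_sum_of_subset_of_nonneg h11
          (f := fun k => nsq (E f k)) (fun _ _ _ => nsq_nonneg _)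
        rwa [Finset.sum_pair hk.symm] at h12
      have h13 := nsq_nonneg (E f k)
      exact nsq_eq_zero (by omega)
    · obtain ⟨c, e, he, hx⟩ := eq_single_of_nsq_one h9
      rw [hx, MonoidAlgebra.coeff_single, Finsupp.single_apply] at h8
      split_ifs at h8 with hc
      · rw [hx, hc, h8, MonoidAlgebra.one_def]
      · exact absurd h8 (by norm_num)

/-- if `U U*` is invertible and no column of `U` is zero, then `U` is invertible -/
theorem inv_of_gram {μ : Type} [Fintype μ] [DecidableEq μ]
    (S : (Matrix κ κ (MonoidAlgebra ℤ Γ))ˣ) (U : Matrix κ μ (MonoidAlgebra ℤ Γ))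
    (hU : U * adj U = S.val) (h0 : ∀ f, ∃ i, U i f ≠ 0) :
    adj U * S⁻¹.val * U = 1 := by
  classical
  set E := adj U * S⁻¹.val * U with hE
  have hS : adj S.val = S.val := by rw [← hU, adj_mul, adj_adj]
  have hSi : adj S⁻¹.val = S⁻¹.val := by
    have h1 : adj S⁻¹.val * S.val = 1 := by
      rw [← hS, ← adj_mul, S.mul_inv, adj_one]
    calc adj S⁻¹.val = adj S⁻¹.val * (S.val * S⁻¹.val) := by rw [S.mul_inv, Matrix.mul_one]
      _ = (adj S⁻¹.val * S.val) * S⁻¹.val := by rw [Matrix.mul_assoc]
      _ = S⁻¹.val := by rw [h1, Matrix.one_mul]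
  have hUE : U * E = U := by
    rw [hE, ← Matrix.mul_assoc, ← Matrix.mul_assoc, hU, S.mul_inv, Matrix.one_mul]
  have h1 : E * E = E := by
    rw [hE, Matrix.mul_assoc (adj U * S⁻¹.val) U (adj U * S⁻¹.val * U), ← hE, hUE]
  have h2 : adj E = E := by
    rw [hE, adj_mul, adj_mul, adj_adj, hSi, Matrix.mul_assoc]
  ext1 f k
  have h3 : ∀ f, (∀ k, k ≠ f → E f k = 0) ∧ E f f = 1 := by
    intro f
    rcases proj_row E h1 h2 f with h | h
    · exfalso
      obtain ⟨i, hi⟩ := h0 f
      apply hi
      rw [← hUE, Matrix.mul_apply]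
      refine Finset.sum_eq_zero fun k _ => ?_
      have : E k f = 0 := by
        rw [← h2, adj_apply, h k, bar_zero]
      rw [this, mul_zero]
    · exact h
  by_cases hk : k = f
  · subst hk
    rw [(h3 k).2, Matrix.one_apply_eq]
  · rw [(h3 f).1 k hk, Matrix.one_apply_ne (Ne.symm hk)]

/-- the augmentation -/
noncomputable def augZ : MonoidAlgebra ℤ Γ →+* ℤ :=
  (MonoidAlgebra.lift ℤ ℤ Γ (1 : Γ →* ℤ)).toRingHom

theorem card_of_inv {μ : Type} [Fintype μ] [DecidableEq μ]
    (U : Matrix κ μ (MonoidAlgebra ℤ Γ)) (V : Matrix μ κ (MonoidAlgebra ℤ Γ))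
    (h1 : U * V = 1) (h2 : V * U = 1) : Fintype.card μ = Fintype.card κ := by
  have h3 : U.map augZ * V.map augZ = 1 := by
    rw [← Matrix.map_mul, h1]
    simp [Matrix.map_one]
  have h4 : V.map augZ * U.map augZ = 1 := by
    rw [← Matrix.map_mul, h2]
    simp [Matrix.map_one]
  exact (Matrix.square_of_invertible _ _ h3 h4).symm

/-! ### the edges -/

/-- the edges at the identity -/
noncomputable def Kh (S : Matrix κ κ (MonoidAlgebra ℤ Γ)) : Finset (κ × κ × Γ) := by
  classical
  exact ((Finset.univ : Finset κ).biUnion fun i => (Finset.univ : Finset κ).biUnion fun j =>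
    (S i j).coeff.support.image fun g => (i, j, g)).filter fun f => ¬ (f.1 = f.2.1 ∧ f.2.2 = 1)

theorem mem_Kh (S : Matrix κ κ (MonoidAlgebra ℤ Γ)) (f : κ × κ × Γ) :
    f ∈ Kh S ↔ (S f.1 f.2.1).coeff f.2.2 ≠ 0 ∧ ¬ (f.1 = f.2.1 ∧ f.2.2 = 1) := by
  classical
  obtain ⟨i, j, g⟩ := f
  unfold Kh
  rw [Finset.mem_filter]
  refine and_congr ?_ Iff.rfl
  simp only [Finset.mem_biUnion, Finset.mem_univ, true_and, Finset.mem_image]
  constructor
  · rintro ⟨i', j', g', h, h2⟩
    rw [Prod.mk.injEq, Prod.mk.injEq] at h2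
    obtain ⟨rfl, rfl, rfl⟩ := h2
    exact Finsupp.mem_support_iff.1 h
  · intro h
    exact ⟨i, j, g, Finsupp.mem_support_iff.2 h, rfl⟩

/-- the reversed edge -/
def rv (f : κ × κ × Γ) : κ × κ × Γ := (f.2.1, f.1, f.2.2⁻¹)

theorem rv_rv (f : κ × κ × Γ) : rv (rv f) = f := by
  obtain ⟨i, j, g⟩ := f; simp [rv]

theorem S_rv {S : Matrix κ κ (MonoidAlgebra ℤ Γ)} (hS : adj S = S) (i j : κ) (g : Γ) :
    (S j i).coeff g⁻¹ = (S i j).coeff g := by
  conv_rhs => rw [← hS]
  rw [adj_apply, coeff_bar]

theorem rv_mem {S : Matrix κ κ (MonoidAlgebra ℤ Γ)} (hS : adj S = S) {f : κ × κ × Γ}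
    (hf : f ∈ Kh S) : rv f ∈ Kh S := by
  rw [mem_Kh] at hf ⊢
  obtain ⟨i, j, g⟩ := f
  refine ⟨?_, ?_⟩
  · simp only [rv]
    rw [S_rv hS]; exact hf.1
  · rintro ⟨h1, h2⟩
    simp only [rv] at h1 h2
    exact hf.2 ⟨h1.symm, inv_eq_one.1 h2⟩

/-- a choice of one edge in each pair -/
theorem exists_half {α : Type*} [DecidableEq α] (s : Finset α) (ρ : α → α)
    (h1 : ∀ a, ρ (ρ a) = a) (h2 : ∀ a ∈ s, ρ a ∈ s) (h3 : ∀ a ∈ s, ρ a ≠ a) :
    ∃ t ⊆ s, ∀ {β : Type} [AddCommMonoid β] (F : α → β),
      ∑ a ∈ s, F a = ∑ a ∈ t, (F a + F (ρ a)) := by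
  classical
  refine ⟨s.filter fun a => WellOrderingRel a (ρ a), Finset.filter_subset _ _, ?_⟩
  intro β _ F
  rw [Finset.sum_add_distrib]
  have e1 : ∑ a ∈ s.filter (fun a => WellOrderingRel a (ρ a)), F (ρ a)
      = ∑ a ∈ s.filter (fun a => ¬ WellOrderingRel a (ρ a)), F a := by
    refine Finset.sum_nbij' ρ ρ ?_ ?_ ?_ ?_ ?_
    · intro a ha
      rw [Finset.mem_filter] at ha ⊢
      refine ⟨h2 a ha.1, ?_⟩
      rw [h1]
      intro h
      exact asymm ha.2 h
    · intro a ha
      rw [Finset.mem_filter] at ha ⊢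
      refine ⟨h2 a ha.1, ?_⟩
      rw [h1]
      rcases trichotomous_of WellOrderingRel a (ρ a) with h | h | h
      · exact absurd h ha.2
      · exact absurd h.symm (h3 a ha.1)
      · exact h
    · intro a _; exact h1 a
    · intro a _; exact h1 a
    · intro a _; rfl
  rw [e1, Finset.sum_filter_add_sum_filter_not]

variable (S : (Matrix κ κ (MonoidAlgebra ℤ Γ))ˣ)

/-- the number of edges at a vertex -/
theorem deg_eq (hS : adj S.val = S.val) (hD : DDom S.val) (a : κ) :
    ∑ f ∈ Kh S.val, (if a = f.1 then (1 : ℤ) else 0)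
      = ∑ j, (l1 (S.val a j) : ℤ) - (S.val a a).coeff 1 := by
  classical
  have h1 : ∀ f ∈ Kh S.val, (if a = f.1 then (1 : ℤ) else 0)
      = if a = f.1 then |(S.val f.1 f.2.1).coeff f.2.2| else 0 := by
    intro f hf
    rw [mem_Kh] at hf
    rw [(edge_unit S hS hD f.1 f.2.1 f.2.2 hf.2 hf.1).1]
  rw [Finset.sum_congr rfl h1]
  have h0 : 0 ≤ (S.val a a).coeff 1 := by
    have := hD a
    have h2 : (0 : ℤ) ≤ ∑ j, (l1 (S.val a j) : ℤ) := by positivity
    omega
  set T : Finset (κ × κ × Γ) := (Finset.univ : Finset κ).biUnion fun j =>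
    (S.val a j).coeff.support.image fun g => (a, j, g) with hT
  have h2 : ∑ f ∈ T, |(S.val f.1 f.2.1).coeff f.2.2| = ∑ j, (l1 (S.val a j) : ℤ) := by
    rw [hT, Finset.sum_biUnion]
    · refine Finset.sum_congr rfl fun j _ => ?_
      rw [Finset.sum_image, l1_cast _ _ (Finset.Subset.refl _)]
      intro g _ g' _ h
      simpa using h
    · intro j _ j' _ hne
      rw [Function.onFun, Finset.disjoint_left]
      rintro ⟨b, k, g⟩ hb hb'
      rw [Finset.mem_image] at hb hb'
      obtain ⟨g1, _, h3⟩ := hb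
      obtain ⟨g2, _, h4⟩ := hb'
      rw [Prod.mk.injEq, Prod.mk.injEq] at h3 h4
      exact hne (h3.2.1.trans h4.2.1.symm)
  rw [← h2]
  have h3 : ∑ f ∈ Kh S.val, (if a = f.1 then |(S.val f.1 f.2.1).coeff f.2.2| else 0)
      = ∑ f ∈ T.filter (fun f => ¬ (f = (a, a, 1))), |(S.val f.1 f.2.1).coeff f.2.2| := by
    rw [← Finset.sum_filter]
    refine Finset.sum_congr ?_ fun _ _ => rfl
    ext ⟨i, j, g⟩
    rw [Finset.mem_filter, Finset.mem_filter, mem_Kh, hT]
    simp only [Finset.mem_biUnion, Finset.mem_univ, true_and, Finset.mem_image]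
    constructor
    · rintro ⟨⟨h4, h5⟩, rfl⟩
      refine ⟨⟨j, g, Finsupp.mem_support_iff.2 h4, rfl⟩, ?_⟩
      intro h6
      rw [Prod.mk.injEq, Prod.mk.injEq] at h6
      exact h5 ⟨h6.2.1.symm, h6.2.2⟩
    · rintro ⟨⟨j', g', h4, h5⟩, h6⟩
      rw [Prod.mk.injEq, Prod.mk.injEq] at h5
      obtain ⟨rfl, rfl, rfl⟩ := h5
      refine ⟨⟨Finsupp.mem_support_iff.1 h4, ?_⟩, rfl⟩
      rintro ⟨h7, h8⟩
      apply h6
      rw [h7, h8]
  rw [h3]
  have h4 := Finset.sum_filter_add_sum_filter_not T (fun f => f = (a, a, 1))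
    (fun f => |(S.val f.1 f.2.1).coeff f.2.2|)
  have h5 : ∑ f ∈ T.filter (fun f => f = (a, a, 1)), |(S.val f.1 f.2.1).coeff f.2.2|
      = (S.val a a).coeff 1 := by
    rw [Finset.filter_eq']
    split_ifs with h6
    · rw [Finset.sum_singleton, abs_of_nonneg h0]
    · rw [Finset.sum_empty]
      by_contra h7
      apply h6
      rw [hT, Finset.mem_biUnion]
      exact ⟨a, Finset.mem_univ _, Finset.mem_image.2
        ⟨1, Finsupp.mem_support_iff.2 (Ne.symm h7), rfl⟩⟩
  rw [h5] at h4
  linarith

/-- the factorisation -/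
theorem exists_fact (hS : adj S.val = S.val) (hD : DDom S.val) :
    ∃ (μ : Type) (_ : Fintype μ) (_ : DecidableEq μ) (U : Matrix κ μ (MonoidAlgebra ℤ Γ)),
      U * adj U = S.val ∧ (∀ f, ∃ i, U i f ≠ 0) := by
  classical
  obtain ⟨K, hK, hsum⟩ := exists_half (Kh S.val) rv rv_rv (fun f hf => rv_mem hS hf)
    (fun f hf h => by
      have h1 := (mem_Kh _ _).1 hf
      refine (edge_unit S hS hD f.1 f.2.1 f.2.2 h1.2 h1.1).2 ?_
      obtain ⟨i, j, g⟩ := f
      simp only [rv, Prod.mk.injEq] at h
      refine ⟨h.2.1, ?_⟩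
      have h2 : g⁻¹ = g := h.2.2
      calc g * g = g * g⁻¹ := by rw [h2]
        _ = 1 := mul_inv_cancel g)
  let W : ({f // f ∈ K} ⊕ {i : κ // sl S.val i = 1}) → κ → MonoidAlgebra ℤ Γ := fun p k =>
    match p with
    | Sum.inl f => (if k = f.1.1 then 1 else 0)
        + (if k = f.1.2.1 then MonoidAlgebra.single f.1.2.2 ((S.val f.1.1 f.1.2.1).coeff f.1.2.2)
          else 0)
    | Sum.inr i => if k = i.1 then 1 else 0
  refine ⟨_, inferInstance, inferInstance, adj (Matrix.of W), ?_, ?_⟩
  · -- the product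
    rw [adj_adj]
    -- the contribution of an oriented edge
    let F : κ → κ → κ × κ × Γ → MonoidAlgebra ℤ Γ := fun a b f =>
      if a = f.1 then (if b = f.1 then 1 else 0)
        + (if b = f.2.1 then MonoidAlgebra.single f.2.2 ((S.val f.1 f.2.1).coeff f.2.2) else 0)
      else 0
    ext1 a b
    rw [Matrix.mul_apply, Fintype.sum_sum_type]
    have h1 : ∀ f : {f // f ∈ K}, adj (Matrix.of W) a (Sum.inl f) * Matrix.of W (Sum.inl f) b
        = F a b f.1 + F a b (rv f.1) := by
      rintro ⟨⟨i, j, g⟩, hf⟩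
      have h2 := (mem_Kh _ _).1 (hK hf)
      have h3 := (edge_unit S hS hD i j g h2.2 h2.1).1
      have h4 : (S.val i j).coeff g * (S.val i j).coeff g = 1 := by
        rw [← abs_mul_abs_self, h3]; norm_num
      have h5 : (S.val j i).coeff g⁻¹ = (S.val i j).coeff g := S_rv hS i j g
      simp only [adj_apply, Matrix.of_apply, W, F, rv]
      rw [h5, bar_add]
      set c := (S.val i j).coeff g with hc
      have e1 : bar (if a = i then (1 : MonoidAlgebra ℤ Γ) else 0) = if a = i then 1 else 0 := by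
        split_ifs <;> simp
      have e2 : bar (if a = j then MonoidAlgebra.single g c else 0)
          = if a = j then MonoidAlgebra.single g⁻¹ c else 0 := by
        split_ifs <;> simp
      rw [e1, e2, add_mul]
      congr 1
      · split_ifs <;> simp
      · by_cases ha : a = j
        · rw [if_pos ha, if_pos ha, mul_add, add_comm]
          congr 1
          · by_cases hb : b = j
            · rw [if_pos hb, if_pos hb, MonoidAlgebra.single_mul_single, h4, inv_mul_cancel,
                MonoidAlgebra.one_def]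
            · rw [if_neg hb, if_neg hb, mul_zero]
          · by_cases hb : b = i
            · rw [if_pos hb, if_pos hb, mul_one]
            · rw [if_neg hb, if_neg hb, mul_zero]
        · rw [if_neg ha, if_neg ha, zero_mul]
    rw [Finset.sum_congr rfl fun f _ => h1 f]
    rw [Finset.sum_coe_sort K (fun f => F a b f + F a b (rv f)), ← hsum (F a b)]
    have h6 : ∑ p : {i : κ // sl S.val i = 1},
        adj (Matrix.of W) a (Sum.inr p) * Matrix.of W (Sum.inr p) b
        = if a = b then MonoidAlgebra.single 1 (sl S.val a) else 0 := by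
      have h7 : ∀ p : {i : κ // sl S.val i = 1},
          adj (Matrix.of W) a (Sum.inr p) * Matrix.of W (Sum.inr p) b
          = if a = p.1 then (if b = p.1 then 1 else 0) else 0 := by
        intro p
        simp only [adj_apply, Matrix.of_apply, W]
        have e1 : bar (if a = p.1 then (1 : MonoidAlgebra ℤ Γ) else 0)
            = if a = p.1 then 1 else 0 := by
          split_ifs <;> simp
        rw [e1]
        split_ifs <;> simp
      rw [Finset.sum_congr rfl fun p _ => h7 p]
      rcases slack_unit S hS hD a with h8 | h8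
      · rw [Finset.sum_eq_zero]
        · rw [h8]; simp
        · rintro ⟨p, hp⟩ _
          rw [if_neg]
          rintro rfl
          rw [h8] at hp
          exact absurd hp (by norm_num)
      · rw [Finset.sum_eq_single ⟨a, h8⟩]
        · simp only [if_true]
          by_cases hab : a = b
          · rw [if_pos hab.symm, if_pos hab, h8, MonoidAlgebra.one_def]
          · rw [if_neg (Ne.symm hab), if_neg hab]
        · rintro ⟨p, hp⟩ _ hne
          rw [if_neg]
          rintro rfl
          exact hne rfl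
        · intro h; exact absurd (Finset.mem_univ _) h
    rw [h6]
    ext h
    rw [MonoidAlgebra.coeff_add, Finsupp.add_apply, MonoidAlgebra.coeff_sum,
      Finsupp.finsetSum_apply]
    have h9 : ∀ f ∈ Kh S.val, (F a b f).coeff h
        = (if a = f.1 then (1 : ℤ) else 0) * (if a = b ∧ h = 1 then 1 else 0)
          + (if f = (a, b, h) then (S.val a b).coeff h else 0) := by
      rintro ⟨i, j, g⟩ _
      simp only [F]
      by_cases ha : a = i
      · subst ha
        rw [if_pos rfl, if_pos rfl, MonoidAlgebra.coeff_add, Finsupp.add_apply, one_mul]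
        congr 1
        · by_cases hb : b = a
          · subst hb
            rw [if_pos rfl, MonoidAlgebra.one_def, MonoidAlgebra.coeff_single,
              Finsupp.single_apply]
            by_cases hh : h = 1
            · rw [if_pos hh.symm, if_pos ⟨rfl, hh⟩]
            · rw [if_neg (Ne.symm hh), if_neg (fun h' => hh h'.2)]
          · rw [if_neg hb, if_neg (fun h' => hb h'.1.symm)]
            rfl
        · by_cases hb : b = j
          · subst hb
            rw [if_pos rfl, MonoidAlgebra.coeff_single, Finsupp.single_apply]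
            by_cases hh : g = h
            · subst hh
              simp
            · rw [if_neg hh, if_neg]
              intro h'
              simp only [Prod.mk.injEq, true_and] at h'
              exact hh h'
          · rw [if_neg hb, if_neg]
            · rfl
            · intro h'
              simp only [Prod.mk.injEq, true_and] at h'
              exact hb h'.1.symm
      · rw [if_neg ha, if_neg ha, zero_mul, if_neg]
        · simp
        · intro h'
          rw [Prod.mk.injEq] at h'
          exact ha h'.1.symm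
    rw [Finset.sum_congr rfl h9, Finset.sum_add_distrib, ← Finset.sum_mul, deg_eq S hS hD,
      Finset.sum_ite_eq']
    by_cases hab : a = b ∧ h = 1
    · obtain ⟨rfl, rfl⟩ := hab
      rw [if_pos ⟨rfl, rfl⟩, if_neg, if_pos rfl, MonoidAlgebra.coeff_single,
        Finsupp.single_eq_same]
      · unfold sl
        ring
      · rw [mem_Kh]
        rintro ⟨_, h'⟩
        exact h' ⟨rfl, rfl⟩
    · rw [if_neg hab, mul_zero, zero_add]
      have h10 : (if a = b then (MonoidAlgebra.single 1 (sl S.val a) : MonoidAlgebra ℤ Γ)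
          else 0).coeff h = 0 := by
        by_cases h11 : a = b
        · rw [if_pos h11, MonoidAlgebra.coeff_single, Finsupp.single_apply, if_neg]
          intro h12
          exact hab ⟨h11, h12.symm⟩
        · rw [if_neg h11]; rfl
      rw [h10, add_zero]
      split_ifs with h11
      · rfl
      · rw [mem_Kh] at h11
        by_contra h12
        exact h11 ⟨Ne.symm h12, hab⟩
  · rintro (⟨⟨i, j, g⟩, hf⟩ | ⟨i, hi⟩)
    · refine ⟨i, ?_⟩
      have h2 := (mem_Kh _ _).1 (hK hf)
      intro h0
      have h3 : (adj (Matrix.of W) i (Sum.inl ⟨(i, j, g), hf⟩)).coeff 1 = 1 := by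
        rw [adj_apply, coeff_bar, inv_one]
        simp only [Matrix.of_apply, W, if_true]
        rw [MonoidAlgebra.coeff_add, Finsupp.add_apply, MonoidAlgebra.one_def,
          MonoidAlgebra.coeff_single, Finsupp.single_eq_same]
        by_cases hij : i = j
        · have hg : g ≠ 1 := fun h => h2.2 ⟨hij, h⟩
          rw [if_pos hij, MonoidAlgebra.coeff_single, Finsupp.single_eq_of_ne hg.symm, add_zero]
        · rw [if_neg hij]; simp
      rw [h0] at h3
      simp at h3
    · refine ⟨i, ?_⟩
      rw [adj_apply]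
      simp [W]

/-- an invertible diagonally dominant hermitian matrix is `U U*`, with two-term columns -/
theorem exists_unit_fact (hS : adj S.val = S.val) (hD : DDom S.val) :
    ∃ U : (Matrix κ κ (MonoidAlgebra ℤ Γ))ˣ, U.val * adj U.val = S.val ∧
      ∀ j, ∑ i, l1 (U.val i j) ≤ 2 := by
  classical
  obtain ⟨μ, i1, i2, U, hU, h0⟩ := exists_fact S hS hD
  have h1 := inv_of_gram S U hU h0
  have h2 : U * (adj U * S⁻¹.val) = 1 := by rw [← Matrix.mul_assoc, hU, S.mul_inv]
  have hc := card_of_inv U (adj U * S⁻¹.val) h2 h1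
  obtain ⟨e⟩ : Nonempty (κ ≃ μ) := ⟨Fintype.equivOfCardEq hc.symm⟩
  let U' : (Matrix κ κ (MonoidAlgebra ℤ Γ))ˣ :=
    ⟨U.submatrix id e, (adj U * S⁻¹.val).submatrix e id, by
      rw [Matrix.submatrix_mul_equiv, h2]; exact Matrix.submatrix_one_equiv (Equiv.refl κ), by
      rw [← Matrix.submatrix_mul _ _ e id e Function.bijective_id, h1]
      exact Matrix.submatrix_one_equiv e⟩
  have h3 : U'.val * adj U'.val = S.val := by
    have : adj (U.submatrix id e) = (adj U).submatrix e id := rfl
    change U.submatrix id e * adj (U.submatrix id e) = S.val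
    rw [this, Matrix.submatrix_mul_equiv, hU, Matrix.submatrix_id_id]
  refine ⟨U', h3, fun j => ?_⟩
  exact col_bound U' (by rw [h3]; exact hD) j

theorem TT_herm (hS : adj S.val = S.val) (hD : DDom S.val) : TT (TU Γ) S := by
  obtain ⟨U, hU, hc⟩ := exists_unit_fact S hS hD
  let V : (Matrix κ κ (MonoidAlgebra ℤ Γ))ˣ :=
    ⟨adj U.val, adj U⁻¹.val, by rw [← adj_mul, U.inv_mul, adj_one],
      by rw [← adj_mul, U.mul_inv, adj_one]⟩
  have h1 : S = U * V := Units.ext hU.symm
  rw [h1]
  refine TT_mul _ _ _ (TT_two_mat U (Or.inl hc)) (TT_two_mat V (Or.inr fun i => ?_))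
  have h2 : ∀ k, l1 (V.val i k) = l1 (U.val k i) := fun k => by
    change l1 (adj U.val i k) = _
    rw [adj_apply, l1_bar]
  simpa only [h2] using hc i

end Pool.Agent.R719.DD
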