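import Mathlib

set_option autoImplicit false

/-! Weakly diagonally dominant symmetric integer forms: the finite inequality. -/

namespace Pool.Agent.R719.DD

open Finset

variable {α : Type*}

theorem abs_le_sq (a : ℤ) : |a| ≤ a ^ 2 := by
  rcases eq_or_ne a 0 with rfl | h
  · simp
  · have h1 := Int.one_le_abs h
    rw [← sq_abs a]
    nlinarith [abs_nonneg a]

/-- termwise inequality -/
theorem term_le (s a b : ℤ) : |s * a + |s| * b| ≤ |s| * a ^ 2 + |s| * b ^ 2 + 2 * s * a * b := by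
  rcases abs_cases s with ⟨h1, h2⟩ | ⟨h1, h2⟩
  · rw [h1]
    have h3 : s * a + s * b = s * (a + b) := by ring
    have h4 : s * a ^ 2 + s * b ^ 2 + 2 * s * a * b = s * (a + b) ^ 2 := by ring
    rw [h3, h4, abs_mul, abs_of_nonneg h2]
    apply mul_le_mul_of_nonneg_left _ h2
    exact abs_le_sq _
  · rw [h1]
    have h3 : s * a + -s * b = (-s) * (b - a) := by ring
    have h4 : -s * a ^ 2 + -s * b ^ 2 + 2 * s * a * b = (-s) * (b - a) ^ 2 := by ring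
    have h5 : 0 ≤ -s := by omega
    rw [h3, h4, abs_mul, abs_of_nonneg h5]
    apply mul_le_mul_of_nonneg_left _ h5
    exact abs_le_sq _

theorem term_nonneg (s a b : ℤ) : 0 ≤ |s| * a ^ 2 + |s| * b ^ 2 + 2 * s * a * b :=
  (abs_nonneg _).trans (term_le s a b)

/-- the inequality `‖S f‖₁ ≤ 2 ⟨S f, f⟩` for a diagonally dominant integer form -/
theorem fin_dd [DecidableEq α] (T : Finset α) (s : α → α → ℤ)
    (hs : ∀ u ∈ T, ∀ v ∈ T, s u v = s v u)
    (hd : ∀ v ∈ T, ∑ u ∈ T, |s u v| ≤ 2 * s v v) (f : α → ℤ) :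
    ∑ v ∈ T, |∑ u ∈ T, s u v * f u| ≤ 2 * ∑ v ∈ T, (∑ u ∈ T, s u v * f u) * f v := by
  -- the slack
  set r : α → ℤ := fun v => 2 * s v v - ∑ u ∈ T, |s u v| with hr
  have hr0 : ∀ v ∈ T, 0 ≤ r v := fun v hv => by
    have := hd v hv
    simp only [hr]; omega
  have hpos : ∀ v ∈ T, 0 ≤ s v v := by
    intro v hv
    have h1 := hd v hv
    have h2 : 0 ≤ ∑ u ∈ T, |s u v| := Finset.sum_nonneg fun _ _ => abs_nonneg _
    omega
  have h1 : ∀ v ∈ T, |∑ u ∈ T, s u v * f u| ≤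
      ∑ u ∈ T.erase v, (|s u v| * f u ^ 2 + |s u v| * f v ^ 2 + 2 * s u v * f u * f v)
        + r v * f v ^ 2 := by
    intro v hv
    have e1 : ∑ u ∈ T, s u v * f u
        = ∑ u ∈ T.erase v, (s u v * f u + |s u v| * f v) + r v * f v := by
      rw [← Finset.add_sum_erase T _ hv, Finset.sum_add_distrib, ← Finset.sum_mul]
      have e2 : ∑ u ∈ T, |s u v| = |s v v| + ∑ u ∈ T.erase v, |s u v| :=
        (Finset.add_sum_erase T _ hv).symm
      have e3 : |s v v| = s v v := abs_of_nonneg (hpos v hv)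
      have e4 : r v = s v v - ∑ u ∈ T.erase v, |s u v| := by
        simp only [hr]; rw [e2, e3]; ring
      rw [e4]; ring
    rw [e1]
    refine (abs_add_le _ _).trans (add_le_add ?_ ?_)
    · exact (Finset.abs_sum_le_sum_abs _ _).trans
        (Finset.sum_le_sum fun u _ => term_le _ _ _)
    · rw [abs_mul, abs_of_nonneg (hr0 v hv)]
      exact mul_le_mul_of_nonneg_left (abs_le_sq _) (hr0 v hv)
  refine (Finset.sum_le_sum h1).trans ?_
  rw [Finset.sum_add_distrib]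
  -- the sum of the terms
  have h2 : ∀ v ∈ T, ∑ u ∈ T.erase v,
        (|s u v| * f u ^ 2 + |s u v| * f v ^ 2 + 2 * s u v * f u * f v)
      = ∑ u ∈ T, (|s u v| * f u ^ 2 + |s u v| * f v ^ 2 + 2 * s u v * f u * f v)
        - 4 * s v v * f v ^ 2 := by
    intro v hv
    rw [← Finset.add_sum_erase T _ hv, abs_of_nonneg (hpos v hv)]
    ring
  rw [Finset.sum_congr rfl h2, Finset.sum_sub_distrib]
  have h3 : ∑ v ∈ T, ∑ u ∈ T, (|s u v| * f u ^ 2 + |s u v| * f v ^ 2 + 2 * s u v * f u * f v)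
      = 2 * ∑ v ∈ T, (∑ u ∈ T, |s u v|) * f v ^ 2
        + 2 * ∑ v ∈ T, (∑ u ∈ T, s u v * f u) * f v := by
    have e1 : ∑ v ∈ T, ∑ u ∈ T, |s u v| * f u ^ 2 = ∑ v ∈ T, (∑ u ∈ T, |s u v|) * f v ^ 2 := by
      rw [Finset.sum_comm]
      refine Finset.sum_congr rfl fun u hu => ?_
      rw [Finset.sum_mul]
      exact Finset.sum_congr rfl fun v hv => by rw [hs u hu v hv]
    have e2 : ∑ v ∈ T, ∑ u ∈ T, |s u v| * f v ^ 2 = ∑ v ∈ T, (∑ u ∈ T, |s u v|) * f v ^ 2 :=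
      Finset.sum_congr rfl fun v _ => by rw [Finset.sum_mul]
    have e3 : ∑ v ∈ T, ∑ u ∈ T, 2 * s u v * f u * f v
        = 2 * ∑ v ∈ T, (∑ u ∈ T, s u v * f u) * f v := by
      rw [Finset.mul_sum]
      refine Finset.sum_congr rfl fun v _ => ?_
      rw [Finset.sum_mul, Finset.mul_sum]
      exact Finset.sum_congr rfl fun u _ => by ring
    simp only [Finset.sum_add_distrib]
    rw [e1, e2, e3]; ring
  rw [h3]
  have h4 : ∑ v ∈ T, r v * f v ^ 2
      = 2 * ∑ v ∈ T, s v v * f v ^ 2 - ∑ v ∈ T, (∑ u ∈ T, |s u v|) * f v ^ 2 := by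
    rw [Finset.mul_sum, ← Finset.sum_sub_distrib]
    exact Finset.sum_congr rfl fun v _ => by simp only [hr]; ring
  have h5 : 0 ≤ ∑ v ∈ T, r v * f v ^ 2 :=
    Finset.sum_nonneg fun v hv => mul_nonneg (hr0 v hv) (sq_nonneg _)
  have h6 : ∑ v ∈ T, 4 * s v v * f v ^ 2 = 4 * ∑ v ∈ T, s v v * f v ^ 2 := by
    rw [Finset.mul_sum]
    exact Finset.sum_congr rfl fun v _ => by ring
  rw [h6]
  linarith

/-- the exact formula -/
theorem fin_formula [DecidableEq α] (T : Finset α) (s : α → α → ℤ)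
    (hs : ∀ u ∈ T, ∀ v ∈ T, s u v = s v u)
    (hd : ∀ v ∈ T, ∑ u ∈ T, |s u v| ≤ 2 * s v v) (f : α → ℤ) :
    2 * ∑ v ∈ T, (∑ u ∈ T, s u v * f u) * f v
      = ∑ v ∈ T, ∑ u ∈ T.erase v,
          (|s u v| * f u ^ 2 + |s u v| * f v ^ 2 + 2 * s u v * f u * f v)
        + 2 * ∑ v ∈ T, (2 * s v v - ∑ u ∈ T, |s u v|) * f v ^ 2 := by
  have hpos : ∀ v ∈ T, 0 ≤ s v v := by
    intro v hv
    have h1 := hd v hv
    have h2 : 0 ≤ ∑ u ∈ T, |s u v| := Finset.sum_nonneg fun _ _ => abs_nonneg _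
    omega
  have h2 : ∀ v ∈ T, ∑ u ∈ T.erase v,
        (|s u v| * f u ^ 2 + |s u v| * f v ^ 2 + 2 * s u v * f u * f v)
      = ∑ u ∈ T, (|s u v| * f u ^ 2 + |s u v| * f v ^ 2 + 2 * s u v * f u * f v)
        - 4 * s v v * f v ^ 2 := by
    intro v hv
    rw [← Finset.add_sum_erase T _ hv, abs_of_nonneg (hpos v hv)]
    ring
  rw [Finset.sum_congr rfl h2, Finset.sum_sub_distrib]
  have h3 : ∑ v ∈ T, ∑ u ∈ T, (|s u v| * f u ^ 2 + |s u v| * f v ^ 2 + 2 * s u v * f u * f v)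
      = 2 * ∑ v ∈ T, (∑ u ∈ T, |s u v|) * f v ^ 2
        + 2 * ∑ v ∈ T, (∑ u ∈ T, s u v * f u) * f v := by
    have e1 : ∑ v ∈ T, ∑ u ∈ T, |s u v| * f u ^ 2 = ∑ v ∈ T, (∑ u ∈ T, |s u v|) * f v ^ 2 := by
      rw [Finset.sum_comm]
      refine Finset.sum_congr rfl fun u hu => ?_
      rw [Finset.sum_mul]
      exact Finset.sum_congr rfl fun v hv => by rw [hs u hu v hv]
    have e2 : ∑ v ∈ T, ∑ u ∈ T, |s u v| * f v ^ 2 = ∑ v ∈ T, (∑ u ∈ T, |s u v|) * f v ^ 2 :=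
      Finset.sum_congr rfl fun v _ => by rw [Finset.sum_mul]
    have e3 : ∑ v ∈ T, ∑ u ∈ T, 2 * s u v * f u * f v
        = 2 * ∑ v ∈ T, (∑ u ∈ T, s u v * f u) * f v := by
      rw [Finset.mul_sum]
      refine Finset.sum_congr rfl fun v _ => ?_
      rw [Finset.sum_mul, Finset.mul_sum]
      exact Finset.sum_congr rfl fun u _ => by ring
    simp only [Finset.sum_add_distrib]
    rw [e1, e2, e3]; ring
  rw [h3]
  have h4 : ∑ v ∈ T, (2 * s v v - ∑ u ∈ T, |s u v|) * f v ^ 2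
      = 2 * ∑ v ∈ T, s v v * f v ^ 2 - ∑ v ∈ T, (∑ u ∈ T, |s u v|) * f v ^ 2 := by
    rw [Finset.mul_sum, ← Finset.sum_sub_distrib]
    exact Finset.sum_congr rfl fun v _ => by ring
  have h6 : ∑ v ∈ T, 4 * s v v * f v ^ 2 = 4 * ∑ v ∈ T, s v v * f v ^ 2 := by
    rw [Finset.mul_sum]
    exact Finset.sum_congr rfl fun v _ => by ring
  rw [h6, h4]
  ring

end Pool.Agent.R719.DD
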