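import Pool.Agent.R719.DD.Ring

set_option autoImplicit false
set_option linter.unusedSectionVars false

/-! Invertible diagonally dominant hermitian matrices over integral group rings. -/

namespace Pool.Agent.R719.DD

open Matrix TH57.Thr TH6.LF TH6.CX Pool.Agent.Y75.Th Pool.Agent.Y35.KC.TTm

variable {Γ : Type} [Group Γ] {κ : Type} [Fintype κ] [DecidableEq κ]

/-- slack of a row -/
def sl (S : Matrix κ κ (MonoidAlgebra ℤ Γ)) (i : κ) : ℤ :=
  2 * (S i i).coeff 1 - ∑ j, (l1 (S i j) : ℤ)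

/-- lower bound of the form by one edge -/
theorem edge_le {S : Matrix κ κ (MonoidAlgebra ℤ Γ)} (hS : adj S = S) (hD : DDom S)
    (y : κ → MonoidAlgebra ℤ Γ) (u v : κ × Γ) (huv : u ≠ v) :
    |ss S u v| * (y u.1).coeff u.2 ^ 2 + |ss S u v| * (y v.1).coeff v.2 ^ 2
      + 2 * ss S u v * (y u.1).coeff u.2 * (y v.1).coeff v.2 ≤ qf S y := by
  classical
  set T0 : Finset Γ := ((Finset.univ.biUnion fun i => (y i).coeff.support)
    ∪ Finset.univ.biUnion fun i => ((y ᵥ* S) i).coeff.support) ∪ {u.2, v.2} with hT0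
  have hT : ∀ i, (y i).coeff.support ⊆ T0 := fun i =>
    ((Finset.subset_biUnion_of_mem (fun i => (y i).coeff.support) (Finset.mem_univ i)).trans
      Finset.subset_union_left).trans Finset.subset_union_left
  have hT2 : ∀ i, ((y ᵥ* S) i).coeff.support ⊆ T0 := fun i =>
    ((Finset.subset_biUnion_of_mem (fun i => ((y ᵥ* S) i).coeff.support)
      (Finset.mem_univ i)).trans Finset.subset_union_right).trans Finset.subset_union_left
  have hu : u ∈ (Finset.univ : Finset κ) ×ˢ T0 := by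
    rw [Finset.mem_product]
    exact ⟨Finset.mem_univ _, Finset.mem_union_right _ (by simp)⟩
  have hv : v ∈ (Finset.univ : Finset κ) ×ˢ T0 := by
    rw [Finset.mem_product]
    exact ⟨Finset.mem_univ _, Finset.mem_union_right _ (by simp)⟩
  set T := (Finset.univ : Finset κ) ×ˢ T0 with hTT
  have h1 := fin_formula T (ss S) (fun u _ v _ => ss_symm hS u v)
    (fun v _ => ss_sum hS hD T0 v) (fun u => (y u.1).coeff u.2)
  rw [← qf_eq S y T0 hT hT2] at h1
  have h2 : 0 ≤ ∑ v ∈ T, (2 * ss S v v - ∑ u ∈ T, |ss S u v|) * (y v.1).coeff v.2 ^ 2 :=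
    Finset.sum_nonneg fun v _ => mul_nonneg (sub_nonneg.2 (ss_sum hS hD T0 v)) (sq_nonneg _)
  have h3 : ∀ a : κ × Γ, 0 ≤ ∑ b ∈ T.erase a, (|ss S b a| * (y b.1).coeff b.2 ^ 2
      + |ss S b a| * (y a.1).coeff a.2 ^ 2
      + 2 * ss S b a * (y b.1).coeff b.2 * (y a.1).coeff a.2) := fun a =>
    Finset.sum_nonneg fun b _ => term_nonneg _ _ _
  have h4 : ∀ a b : κ × Γ, a ≠ b → a ∈ T → b ∈ T →
      |ss S b a| * (y b.1).coeff b.2 ^ 2 + |ss S b a| * (y a.1).coeff a.2 ^ 2
      + 2 * ss S b a * (y b.1).coeff b.2 * (y a.1).coeff a.2 ≤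
      ∑ b ∈ T.erase a, (|ss S b a| * (y b.1).coeff b.2 ^ 2
      + |ss S b a| * (y a.1).coeff a.2 ^ 2
      + 2 * ss S b a * (y b.1).coeff b.2 * (y a.1).coeff a.2) := fun a b hab _ hb =>
    Finset.single_le_sum (f := fun b => |ss S b a| * (y b.1).coeff b.2 ^ 2
      + |ss S b a| * (y a.1).coeff a.2 ^ 2
      + 2 * ss S b a * (y b.1).coeff b.2 * (y a.1).coeff a.2)
      (fun b _ => term_nonneg _ _ _) (Finset.mem_erase.2 ⟨hab.symm, hb⟩)
  have h5 : ({u, v} : Finset (κ × Γ)) ⊆ T := by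
    intro a ha
    rw [Finset.mem_insert, Finset.mem_singleton] at ha
    rcases ha with rfl | rfl <;> assumption
  have h6 := Finset.sum_le_sum_of_subset_of_nonneg h5 (fun a _ _ => h3 a)
  rw [Finset.sum_pair huv] at h6
  have h7 := h4 u v huv hu hv
  have h8 := h4 v u huv.symm hv hu
  have h9 : ss S v u = ss S u v := ss_symm hS v u
  rw [h9] at h7
  nlinarith

/-- lower bound of the form by the slack -/
theorem slack_le {S : Matrix κ κ (MonoidAlgebra ℤ Γ)} (hS : adj S = S) (hD : DDom S)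
    (y : κ → MonoidAlgebra ℤ Γ) (v : κ × Γ) :
    sl S v.1 * (y v.1).coeff v.2 ^ 2 ≤ qf S y := by
  classical
  set T0 : Finset Γ := ((Finset.univ.biUnion fun i => (y i).coeff.support)
    ∪ Finset.univ.biUnion fun i => ((y ᵥ* S) i).coeff.support) ∪ {v.2} with hT0
  have hT : ∀ i, (y i).coeff.support ⊆ T0 := fun i =>
    ((Finset.subset_biUnion_of_mem (fun i => (y i).coeff.support) (Finset.mem_univ i)).trans
      Finset.subset_union_left).trans Finset.subset_union_left
  have hT2 : ∀ i, ((y ᵥ* S) i).coeff.support ⊆ T0 := fun i =>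
    ((Finset.subset_biUnion_of_mem (fun i => ((y ᵥ* S) i).coeff.support)
      (Finset.mem_univ i)).trans Finset.subset_union_right).trans Finset.subset_union_left
  have hv : v ∈ (Finset.univ : Finset κ) ×ˢ T0 := by
    rw [Finset.mem_product]
    exact ⟨Finset.mem_univ _, Finset.mem_union_right _ (by simp)⟩
  set T := (Finset.univ : Finset κ) ×ˢ T0 with hTT
  have h1 := fin_formula T (ss S) (fun u _ v _ => ss_symm hS u v)
    (fun v _ => ss_sum hS hD T0 v) (fun u => (y u.1).coeff u.2)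
  rw [← qf_eq S y T0 hT hT2] at h1
  have h3 : 0 ≤ ∑ a ∈ T, ∑ b ∈ T.erase a, (|ss S b a| * (y b.1).coeff b.2 ^ 2
      + |ss S b a| * (y a.1).coeff a.2 ^ 2
      + 2 * ss S b a * (y b.1).coeff b.2 * (y a.1).coeff a.2) :=
    Finset.sum_nonneg fun a _ => Finset.sum_nonneg fun b _ => term_nonneg _ _ _
  have h4 : (2 * ss S v v - ∑ u ∈ T, |ss S u v|) * (y v.1).coeff v.2 ^ 2 ≤
      ∑ v ∈ T, (2 * ss S v v - ∑ u ∈ T, |ss S u v|) * (y v.1).coeff v.2 ^ 2 :=
    Finset.single_le_sum (f := fun v => (2 * ss S v v - ∑ u ∈ T, |ss S u v|)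
      * (y v.1).coeff v.2 ^ 2)
      (fun v _ => mul_nonneg (sub_nonneg.2 (ss_sum hS hD T0 v)) (sq_nonneg _)) hv
  have h5 : sl S v.1 ≤ 2 * ss S v v - ∑ u ∈ T, |ss S u v| := by
    -- the partial sums of the absolute values
    obtain ⟨j, z⟩ := v
    have h6 : ∑ u ∈ T, |ss S u (j, z)| ≤ ∑ i, (l1 (S j i) : ℤ) := by
      rw [hTT, Finset.sum_product]
      refine Finset.sum_le_sum fun i _ => ?_
      have e1 : ∀ x, ss S (i, x) (j, z) = (S j i).coeff (z⁻¹ * x) := fun x => by
        rw [ss_symm hS]; rfl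
      simp only [e1]
      have e2 : ∑ x ∈ T0, |(S j i).coeff (z⁻¹ * x)|
          = ∑ g ∈ T0.map (Equiv.mulLeft z⁻¹).toEmbedding, |(S j i).coeff g| := by
        rw [Finset.sum_map]; rfl
      rw [e2]
      exact sum_le_l1 _ _
    have h7 : ss S (j, z) (j, z) = (S j j).coeff 1 := by simp [ss]
    rw [h7]
    unfold sl
    exact sub_le_sub_left h6 _
  have h6 := mul_le_mul_of_nonneg_right h5 (sq_nonneg ((y v.1).coeff v.2))
  linarith

variable (S : (Matrix κ κ (MonoidAlgebra ℤ Γ))ˣ)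

theorem pre_vecMul (a : κ → MonoidAlgebra ℤ Γ) : (a ᵥ* S⁻¹.val) ᵥ* S.val = a := by
  rw [Matrix.vecMul_vecMul, S.inv_mul, Matrix.vecMul_one]

theorem qf_pre (a : κ → MonoidAlgebra ℤ Γ) :
    qf S.val (a ᵥ* S⁻¹.val) = (∑ j, a j * bar ((a ᵥ* S⁻¹.val) j)).coeff 1 := by
  unfold qf
  rw [pre_vecMul]

theorem one_le_qf (hS : adj S.val = S.val) (hD : DDom S.val) (a : κ → MonoidAlgebra ℤ Γ)
    (i : κ) (h : a i ≠ 0) : 1 ≤ qf S.val (a ᵥ* S⁻¹.val) := by
  have h1 := l1_le_qf hS hD (a ᵥ* S⁻¹.val)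
  rw [pre_vecMul] at h1
  have h2 : (1 : ℤ) ≤ ∑ j, (l1 (a j) : ℤ) := by
    have h3 : 1 ≤ l1 (a i) := Nat.one_le_iff_ne_zero.2 fun h' => h ((l1_zero_iff _).1 h')
    have h4 : (l1 (a i) : ℤ) ≤ ∑ j, (l1 (a j) : ℤ) :=
      Finset.single_le_sum (f := fun j => (l1 (a j) : ℤ)) (fun _ _ => by positivity)
        (Finset.mem_univ i)
    omega
  omega

/-- the entries off the diagonal are `± 1` or `0` -/
theorem edge_unit (hS : adj S.val = S.val) (hD : DDom S.val) (i j : κ) (g : Γ)
    (hne : ¬ (i = j ∧ g = 1)) (hc : (S.val i j).coeff g ≠ 0) :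
    |(S.val i j).coeff g| = 1 ∧ ¬ (i = j ∧ g * g = 1) := by
  classical
  set c := (S.val i j).coeff g with hcd
  set σ : ℤ := c.sign with hσ
  have hσ2 : σ * σ = 1 := by
    rcases lt_or_gt_of_ne hc with h | h
    · rw [hσ, Int.sign_eq_neg_one_of_neg h]; norm_num
    · rw [hσ, Int.sign_eq_one_of_pos h]; norm_num
  have hσc : σ * |c| = c := Int.sign_mul_abs c
  set a : κ → MonoidAlgebra ℤ Γ :=
    Pi.single i 1 + Pi.single j (MonoidAlgebra.single g σ) with ha
  set y := a ᵥ* S⁻¹.val with hy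
  set t := qf S.val y with ht
  have hai : a i ≠ 0 := by
    intro h0
    have h1 : (a i).coeff 1 = 1 := by
      rw [ha, Pi.add_apply, Pi.single_eq_same, MonoidAlgebra.coeff_add, Finsupp.add_apply]
      by_cases hij : i = j
      · subst hij
        have hg : g ≠ 1 := fun h => hne ⟨rfl, h⟩
        rw [Pi.single_eq_same, MonoidAlgebra.one_def, MonoidAlgebra.coeff_single,
          MonoidAlgebra.coeff_single, Finsupp.single_eq_same, Finsupp.single_eq_of_ne hg.symm,
          add_zero]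
      · rw [Pi.single_eq_of_ne hij, MonoidAlgebra.one_def, MonoidAlgebra.coeff_single,
          Finsupp.single_eq_same]
        simp
    rw [h0] at h1
    simp at h1
  have ht1 : 1 ≤ t := one_le_qf S hS hD a i hai
  have htv : t = (y i).coeff 1 + σ * (y j).coeff g := by
    rw [ht, hy, qf_pre, ← hy]
    have e1 : ∀ k, a k * bar (y k) = (if k = i then bar (y i) else 0)
        + (if k = j then MonoidAlgebra.single g σ * bar (y j) else 0) := by
      intro k
      rw [ha, Pi.add_apply, add_mul]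
      congr 1
      · by_cases h : k = i
        · subst h; simp
        · rw [Pi.single_eq_of_ne h, if_neg h, zero_mul]
      · by_cases h : k = j
        · subst h; simp
        · rw [Pi.single_eq_of_ne h, if_neg h, zero_mul]
    simp only [e1, Finset.sum_add_distrib, Finset.sum_ite_eq', Finset.mem_univ, if_true]
    rw [MonoidAlgebra.coeff_add, Finsupp.add_apply, coeff_bar, inv_one,
      MonoidAlgebra.coeff_single_mul_apply, coeff_bar]
    simp
  have hle := edge_le hS hD y (i, 1) (j, g) (by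
    intro h
    rw [Prod.mk.injEq] at h
    exact hne ⟨h.1, h.2.symm⟩)
  have hss : ss S.val (i, 1) (j, g) = c := by simp [ss, hcd]
  rw [hss] at hle
  simp only at hle
  rw [← ht] at hle
  have h2 : |c| * (y i).coeff 1 ^ 2 + |c| * (y j).coeff g ^ 2
      + 2 * c * (y i).coeff 1 * (y j).coeff g = |c| * t ^ 2 := by
    rw [htv]
    have h3 : |c| * ((y i).coeff 1 + σ * (y j).coeff g) ^ 2
        = |c| * (y i).coeff 1 ^ 2 + (σ * σ) * |c| * (y j).coeff g ^ 2
          + 2 * (σ * |c|) * (y i).coeff 1 * (y j).coeff g := by ring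
    rw [h3, hσ2, hσc]; ring
  rw [h2] at hle
  have hc1 : 1 ≤ |c| := Int.one_le_abs hc
  have h4 : |c| * t ≤ 1 := by nlinarith
  have h5 : |c| = 1 := by nlinarith
  have h6 : t = 1 := by nlinarith
  refine ⟨h5, ?_⟩
  rintro ⟨hij, hgg⟩
  subst hij
  -- the vector `a` is invariant
  have h7 : MonoidAlgebra.single g σ * a i = a i := by
    rw [ha, Pi.add_apply, Pi.single_eq_same, Pi.single_eq_same, mul_add, mul_one,
      MonoidAlgebra.single_mul_single, hgg, hσ2, MonoidAlgebra.one_def, add_comm]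
  have h8 : y i = MonoidAlgebra.single g σ * y i := by
    have e1 : ∀ k, y k = a i * S⁻¹.val i k := by
      intro k
      rw [hy]
      simp only [Matrix.vecMul, dotProduct]
      rw [Finset.sum_eq_single i]
      · intro l _ hl
        rw [ha, Pi.add_apply, Pi.single_eq_of_ne hl, Pi.single_eq_of_ne hl]
        simp
      · intro h; exact absurd (Finset.mem_univ _) h
    rw [e1 i, ← mul_assoc, h7]
  have h9 : (y i).coeff 1 = σ * (y i).coeff g := by
    conv_lhs => rw [h8]
    rw [MonoidAlgebra.coeff_single_mul_apply, mul_one]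
    congr 2
    exact inv_eq_of_mul_eq_one_left hgg
  rw [h6, h9] at htv
  omega

theorem slack_unit (hS : adj S.val = S.val) (hD : DDom S.val) (i : κ) :
    sl S.val i = 0 ∨ sl S.val i = 1 := by
  classical
  have h0 : 0 ≤ sl S.val i := sub_nonneg.2 (hD i)
  set a : κ → MonoidAlgebra ℤ Γ := Pi.single i 1 with ha
  set y := a ᵥ* S⁻¹.val with hy
  set t := qf S.val y with ht
  have hai : a i ≠ 0 := by
    rw [ha, Pi.single_eq_same]
    exact one_ne_zero
  have ht1 : 1 ≤ t := one_le_qf S hS hD a i hai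
  have htv : t = (y i).coeff 1 := by
    rw [ht, hy, qf_pre, ← hy]
    have e1 : ∀ k, a k * bar (y k) = (if k = i then bar (y i) else 0) := by
      intro k
      by_cases h : k = i
      · subst h; simp [ha]
      · rw [ha, Pi.single_eq_of_ne h, if_neg h, zero_mul]
    simp only [e1, Finset.sum_ite_eq', Finset.mem_univ, if_true]
    rw [coeff_bar, inv_one]
  have hle := slack_le hS hD y (i, 1)
  simp only at hle
  rw [← ht, ← htv] at hle
  have h4 : sl S.val i * t ≤ 1 := by nlinarith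
  have h5 : sl S.val i ≤ 1 := by nlinarith
  omega

end Pool.Agent.R719.DD
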