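import Pool.Agent.R719.DD.Fin
import Pool.Agent.Y75.Th.Nsq
import Pool.Agent.Y35.KC.TwoTerm

set_option autoImplicit false
set_option linter.unusedSectionVars false

/-! Diagonally dominant hermitian matrices over integral group rings. -/

namespace Pool.Agent.R719.DD

open Matrix TH57.Thr TH6.LF TH6.CX Pool.Agent.Y75.Th Pool.Agent.Y35.KC.TTm

variable {Γ : Type} [Group Γ] {κ : Type} [Fintype κ] [DecidableEq κ]

/-- the sum of the absolute values of the coefficients, as an integer -/
theorem l1_cast (x : MonoidAlgebra ℤ Γ) (T : Finset Γ) (h : x.coeff.support ⊆ T) :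
    (l1 x : ℤ) = ∑ g ∈ T, |x.coeff g| := by
  rw [l1_eq x T h]
  push_cast
  rfl

theorem sum_le_l1 (x : MonoidAlgebra ℤ Γ) (T : Finset Γ) :
    ∑ g ∈ T, |x.coeff g| ≤ (l1 x : ℤ) := by
  classical
  rw [l1_cast x (T ∪ x.coeff.support) Finset.subset_union_right]
  exact Finset.sum_le_sum_of_subset_of_nonneg Finset.subset_union_left fun _ _ _ => abs_nonneg _

theorem l1_bar (x : MonoidAlgebra ℤ Γ) : l1 (bar x) = l1 x := by
  classical
  unfold l1
  refine Finset.sum_nbij' (fun g => g⁻¹) (fun g => g⁻¹) ?_ ?_ ?_ ?_ ?_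
  · intro g hg
    rw [Finsupp.mem_support_iff, coeff_bar] at hg
    exact Finsupp.mem_support_iff.2 hg
  · intro g hg
    rw [Finsupp.mem_support_iff] at hg ⊢
    rw [coeff_bar, inv_inv]; exact hg
  · intro g _; simp
  · intro g _; simp
  · intro g _; rw [coeff_bar]

/-- weak diagonal dominance -/
def DDom (S : Matrix κ κ (MonoidAlgebra ℤ Γ)) : Prop :=
  ∀ i, (∑ j, (l1 (S i j) : ℤ)) ≤ 2 * (S i i).coeff 1

/-- the entries of the infinite matrix -/
def ss (S : Matrix κ κ (MonoidAlgebra ℤ Γ)) (u v : κ × Γ) : ℤ :=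
  (S u.1 v.1).coeff (u.2⁻¹ * v.2)

theorem ss_symm {S : Matrix κ κ (MonoidAlgebra ℤ Γ)} (hS : adj S = S) (u v : κ × Γ) :
    ss S u v = ss S v u := by
  unfold ss
  conv_lhs => rw [← hS]
  rw [adj_apply, coeff_bar]
  simp

theorem ss_sum {S : Matrix κ κ (MonoidAlgebra ℤ Γ)} (hS : adj S = S) (hD : DDom S)
    (T0 : Finset Γ) (v : κ × Γ) :
    ∑ u ∈ (Finset.univ : Finset κ) ×ˢ T0, |ss S u v| ≤ 2 * ss S v v := by
  classical
  obtain ⟨j, z⟩ := v
  rw [Finset.sum_product]
  have h1 : ∀ i, ∑ x ∈ T0, |ss S (i, x) (j, z)| ≤ (l1 (S j i) : ℤ) := by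
    intro i
    have e1 : ∀ x, ss S (i, x) (j, z) = (S j i).coeff (z⁻¹ * x) := fun x => by
      rw [ss_symm hS]; rfl
    simp only [e1]
    have e2 : ∑ x ∈ T0, |(S j i).coeff (z⁻¹ * x)|
        = ∑ g ∈ T0.map (Equiv.mulLeft z⁻¹).toEmbedding, |(S j i).coeff g| := by
      rw [Finset.sum_map]; rfl
    rw [e2]
    exact sum_le_l1 _ _
  refine (Finset.sum_le_sum fun i _ => h1 i).trans ?_
  have h2 := hD j
  have h3 : ss S (j, z) (j, z) = (S j j).coeff 1 := by simp [ss]
  rw [h3]; exact h2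

/-- coordinates of a vector times `S` -/
theorem coeff_vecMul (S : Matrix κ κ (MonoidAlgebra ℤ Γ)) (y : κ → MonoidAlgebra ℤ Γ)
    (T0 : Finset Γ) (hT : ∀ i, (y i).coeff.support ⊆ T0) (j : κ) (z : Γ) :
    ((y ᵥ* S) j).coeff z
      = ∑ u ∈ (Finset.univ : Finset κ) ×ˢ T0, ss S u (j, z) * (y u.1).coeff u.2 := by
  classical
  rw [Finset.sum_product]
  simp only [Matrix.vecMul, dotProduct]
  rw [MonoidAlgebra.coeff_sum, Finsupp.finsetSum_apply]
  refine Finset.sum_congr rfl fun i _ => ?_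
  rw [MonoidAlgebra.coeff_mul_apply_left, Finsupp.sum_of_support_subset _ (hT i) _ (by simp)]
  refine Finset.sum_congr rfl fun x _ => ?_
  simp only [ss]; ring

/-- the form -/
noncomputable def qf (S : Matrix κ κ (MonoidAlgebra ℤ Γ)) (y : κ → MonoidAlgebra ℤ Γ) : ℤ :=
  (∑ j, (y ᵥ* S) j * bar (y j)).coeff 1

theorem qf_eq (S : Matrix κ κ (MonoidAlgebra ℤ Γ)) (y : κ → MonoidAlgebra ℤ Γ)
    (T0 : Finset Γ) (hT : ∀ i, (y i).coeff.support ⊆ T0)
    (hT2 : ∀ j, ((y ᵥ* S) j).coeff.support ⊆ T0) :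
    qf S y = ∑ v ∈ (Finset.univ : Finset κ) ×ˢ T0,
      (∑ u ∈ (Finset.univ : Finset κ) ×ˢ T0, ss S u v * (y u.1).coeff u.2)
        * (y v.1).coeff v.2 := by
  classical
  unfold qf
  rw [MonoidAlgebra.coeff_sum, Finsupp.finsetSum_apply, Finset.sum_product]
  refine Finset.sum_congr rfl fun j _ => ?_
  rw [coeff_mul_bar_one _ _ T0 (hT2 j)]
  refine Finset.sum_congr rfl fun z _ => ?_
  rw [coeff_vecMul S y T0 hT]

/-- `‖y S‖₁ ≤ 2 y S y*` -/
theorem l1_le_qf {S : Matrix κ κ (MonoidAlgebra ℤ Γ)} (hS : adj S = S) (hD : DDom S)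
    (y : κ → MonoidAlgebra ℤ Γ) : ∑ j, (l1 ((y ᵥ* S) j) : ℤ) ≤ 2 * qf S y := by
  classical
  set T0 : Finset Γ := (Finset.univ.biUnion fun i => (y i).coeff.support)
    ∪ Finset.univ.biUnion fun i => ((y ᵥ* S) i).coeff.support with hT0
  have hT : ∀ i, (y i).coeff.support ⊆ T0 := fun i =>
    (Finset.subset_biUnion_of_mem (fun i => (y i).coeff.support) (Finset.mem_univ i)).trans
      Finset.subset_union_left
  have hT2 : ∀ i, ((y ᵥ* S) i).coeff.support ⊆ T0 := fun i =>
    (Finset.subset_biUnion_of_mem (fun i => ((y ᵥ* S) i).coeff.support)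
      (Finset.mem_univ i)).trans Finset.subset_union_right
  rw [qf_eq S y T0 hT hT2]
  have h1 := fin_dd ((Finset.univ : Finset κ) ×ˢ T0) (ss S) (fun u _ v _ => ss_symm hS u v)
    (fun v _ => ss_sum hS hD T0 v) (fun u => (y u.1).coeff u.2)
  refine le_trans (le_of_eq ?_) h1
  rw [Finset.sum_product]
  refine Finset.sum_congr rfl fun j _ => ?_
  rw [l1_cast _ T0 (hT2 j)]
  refine Finset.sum_congr rfl fun z _ => ?_
  rw [coeff_vecMul S y T0 hT]

theorem adj_mul_adj (A : Matrix κ κ (MonoidAlgebra ℤ Γ)) : adj (A * adj A) = A * adj A := by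
  rw [adj_mul, adj_adj]

/-- the columns of `A` if `A A*` is diagonally dominant -/
theorem col_bound (A : (Matrix κ κ (MonoidAlgebra ℤ Γ))ˣ)
    (hD : DDom (A.val * adj A.val)) (j : κ) : ∑ i, l1 (A.val i j) ≤ 2 := by
  have h1 := l1_le_qf (adj_mul_adj A.val) hD (fun k => A⁻¹.val j k)
  have e1 : (fun k => A⁻¹.val j k) ᵥ* (A.val * adj A.val) = fun k => adj A.val j k := by
    have : A⁻¹.val * (A.val * adj A.val) = adj A.val := by
      rw [← Matrix.mul_assoc, A.inv_mul, Matrix.one_mul]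
    funext k
    have h2 := congrFun (congrFun this j) k
    rw [← h2]; rfl
  have e2 : qf (A.val * adj A.val) (fun k => A⁻¹.val j k) = 1 := by
    unfold qf
    rw [e1]
    have h3 : ∑ k, adj A.val j k * bar (A⁻¹.val j k) = 1 := by
      have h4 : adj A.val * adj A⁻¹.val = 1 := by
        rw [← adj_mul, A.inv_mul, adj_one]
      have h5 := congrFun (congrFun h4 j) j
      rw [Matrix.mul_apply, Matrix.one_apply_eq] at h5
      rw [← h5]; rfl
    rw [h3, MonoidAlgebra.one_def, MonoidAlgebra.coeff_single, Finsupp.single_eq_same]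
  rw [e1, e2] at h1
  have h6 : ∀ k, l1 (adj A.val j k) = l1 (A.val k j) := fun k => by
    rw [adj_apply, l1_bar]
  simp only [h6] at h1
  exact_mod_cast h1

/-- an invertible matrix with two-term columns or with two-term rows -/
theorem TT_two_mat (A : (Matrix κ κ (MonoidAlgebra ℤ Γ))ˣ)
    (h : (∀ j, ∑ i, l1 (A.val i j) ≤ 2) ∨ ∀ i, ∑ j, l1 (A.val i j) ≤ 2) : TT (TU Γ) A := by
  classical
  let deg : κ ⊕ κ → ℤ := Sum.elim (fun _ => 1) (fun _ => 0)
  let d : Matrix (κ ⊕ κ) (κ ⊕ κ) (MonoidAlgebra ℤ Γ) := fromBlocks 0 A.val 0 0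
  let s : Matrix (κ ⊕ κ) (κ ⊕ κ) (MonoidAlgebra ℤ Γ) := fromBlocks 0 0 A⁻¹.val 0
  have hd : IsBd deg d := by
    refine ⟨?_, ?_⟩
    · rintro (i | i) (j | j) hij
      · exact absurd rfl hij
      · simp [deg]
      · exact absurd rfl hij
      · exact absurd rfl hij
    · simp only [d, fromBlocks_multiply]
      simp
  have hs : IsCt deg d s := by
    refine ⟨?_, ?_⟩
    · rintro (i | i) (j | j) hij
      · exact absurd rfl hij
      · exact absurd rfl hij
      · simp [deg]
      · exact absurd rfl hij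
    · simp only [d, s, fromBlocks_multiply, fromBlocks_add]
      simp [A.mul_inv, A.inv_mul, fromBlocks_one]
  have htwo : TwoTerm deg d := by
    intro k
    by_cases hk : k = 1
    · subst hk
      rcases h with h | h
      · right
        rintro (j | j) hj
        · simp [deg] at hj
        · rw [Fintype.sum_sum_type]
          have e1 : ∑ i : κ, l1 (d (Sum.inr i) (Sum.inr j)) = 0 :=
            Finset.sum_eq_zero fun i _ => (l1_zero_iff _).2 rfl
          rw [e1, add_zero]
          exact h j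
      · left
        rintro (i | i) hi
        · rw [Fintype.sum_sum_type]
          have e1 : ∑ j : κ, l1 (d (Sum.inl i) (Sum.inl j)) = 0 :=
            Finset.sum_eq_zero fun j _ => (l1_zero_iff _).2 rfl
          rw [e1, zero_add]
          exact h i
        · simp [deg] at hi
    · left
      rintro (i | i) hi
      · exact absurd hi.symm hk
      · have e1 : ∑ j, l1 (d (Sum.inr i) j) = 0 :=
          Finset.sum_eq_zero fun j _ => (l1_zero_iff _).2 (by rcases j with j | j <;> rfl)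
        rw [e1]; norm_num
  -- odd and even
  let eo : Ob deg ≃ κ :=
    { toFun := fun p => match p with
        | ⟨Sum.inl i, _⟩ => i
        | ⟨Sum.inr i, h⟩ => absurd h (by simp [deg])
      invFun := fun i => ⟨Sum.inl i, by simp [deg]⟩
      left_inv := by
        rintro ⟨i | i, h⟩
        · rfl
        · exact absurd h (by simp [deg])
      right_inv := fun i => rfl }
  let ee : Eb deg ≃ κ :=
    { toFun := fun p => match p with
        | ⟨Sum.inr i, _⟩ => i
        | ⟨Sum.inl i, h⟩ => absurd h (by simp [deg])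
      invFun := fun i => ⟨Sum.inr i, by simp [deg]⟩
      left_inv := by
        rintro ⟨i | i, h⟩
        · exact absurd h (by simp [deg])
        · rfl
      right_inv := fun i => rfl }
  have hx := TT_two deg d s hd hs htwo (eo.trans ee.symm)
    (Units.map (re (R := MonoidAlgebra ℤ Γ) eo) A) (by
      ext ⟨i | i, hi⟩ ⟨j | j, hj⟩
      · simp [re, tor, eo, ee, d, s]
      · exact absurd hj (by simp [deg])
      · exact absurd hi (by simp [deg])
      · exact absurd hi (by simp [deg]))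
  have h2 := TT_re (TU Γ) eo.symm _ hx
  convert h2 using 1
  apply Units.ext
  ext i j
  simp [re]

/-- the Whitehead torsion vanishes if `A A*` or `A* A` is diagonally dominant -/
theorem TT_gram (A : (Matrix κ κ (MonoidAlgebra ℤ Γ))ˣ)
    (hD : DDom (A.val * adj A.val) ∨ DDom (adj A.val * A.val)) : TT (TU Γ) A := by
  apply TT_two_mat
  rcases hD with hD | hD
  · exact Or.inl (col_bound A hD)
  · right
    intro i
    let B : (Matrix κ κ (MonoidAlgebra ℤ Γ))ˣ :=
      ⟨adj A.val, adj A⁻¹.val, by rw [← adj_mul, A.inv_mul, adj_one],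
        by rw [← adj_mul, A.mul_inv, adj_one]⟩
    have h1 := col_bound B (by simpa only [B, adj_adj] using hD) i
    have h2 : ∀ k, l1 (B.val k i) = l1 (A.val i k) := fun k => by
      change l1 (adj A.val k i) = _
      rw [adj_apply, l1_bar]
    simpa only [h2] using h1

end Pool.Agent.R719.DD
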