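import Pool.Agent.R719.DD.Sharp

set_option autoImplicit false
set_option linter.unusedSectionVars false

/-! Invertible matrices over integral group rings which are diagonally dominant by rows have a
diagonal coefficient one. -/

namespace Pool.Agent.R719.DD

open Matrix TH57.Thr TH6.LF TH6.CX Pool.Agent.Y75.Th Pool.Agent.Y35.KC.TTm

variable {Γ : Type} [Group Γ] {κ : Type} [Fintype κ] [DecidableEq κ]

/-- the infinite integral matrix of `A` -/
def aa (A : Matrix κ κ (MonoidAlgebra ℤ Γ)) (u v : κ × Γ) : ℤ :=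
  (A u.1 v.1).coeff (u.2 * v.2⁻¹)

theorem aa_diag (A : Matrix κ κ (MonoidAlgebra ℤ Γ)) (u : κ × Γ) :
    aa A u u = (A u.1 u.1).coeff 1 := by
  unfold aa; rw [mul_inv_cancel]

theorem aa_one_self (u : κ × Γ) : aa (1 : Matrix κ κ (MonoidAlgebra ℤ Γ)) u u = 1 := by
  rw [aa_diag, Matrix.one_apply_eq, MonoidAlgebra.one_def, MonoidAlgebra.coeff_single,
    Finsupp.single_eq_same]

theorem aa_one_ne (u v : κ × Γ) (h : u ≠ v) :
    aa (1 : Matrix κ κ (MonoidAlgebra ℤ Γ)) u v = 0 := by
  classical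
  obtain ⟨i, x⟩ := u
  obtain ⟨j, y⟩ := v
  unfold aa
  by_cases hij : i = j
  · subst hij
    simp only [Matrix.one_apply_eq, MonoidAlgebra.one_def, MonoidAlgebra.coeff_single]
    rw [Finsupp.single_apply, if_neg]
    intro h3
    apply h
    rw [mul_inv_eq_one.1 h3.symm]
  · simp only [Matrix.one_apply_ne hij]
    rfl

/-- the support of a column -/
noncomputable def cs (B : Matrix κ κ (MonoidAlgebra ℤ Γ)) (w : κ × Γ) : Finset (κ × Γ) := by
  classical
  exact Finset.univ.biUnion fun j => (B j w.1).coeff.support.image fun h => (j, h * w.2)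

theorem aa_eq_zero_of_not_mem (B : Matrix κ κ (MonoidAlgebra ℤ Γ)) (v w : κ × Γ)
    (h : v ∉ cs B w) : aa B v w = 0 := by
  classical
  by_contra h1
  apply h
  unfold cs
  rw [Finset.mem_biUnion]
  refine ⟨v.1, Finset.mem_univ _, ?_⟩
  rw [Finset.mem_image]
  refine ⟨v.2 * w.2⁻¹, Finsupp.mem_support_iff.2 h1, ?_⟩
  rw [inv_mul_cancel_right]

/-- matrix multiplication -/
theorem aa_mul (A B : Matrix κ κ (MonoidAlgebra ℤ Γ)) (u w : κ × Γ) (T : Finset (κ × Γ))
    (hT : ∀ v, v ∉ T → aa A u v * aa B v w = 0) :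
    ∑ v ∈ T, aa A u v * aa B v w = aa (A * B) u w := by
  classical
  have h1 : ∑ v ∈ T, aa A u v * aa B v w = ∑ v ∈ T ∪ cs B w, aa A u v * aa B v w :=
    Finset.sum_subset Finset.subset_union_left fun v _ hv => hT v hv
  have h2 : ∑ v ∈ cs B w, aa A u v * aa B v w = ∑ v ∈ T ∪ cs B w, aa A u v * aa B v w :=
    Finset.sum_subset Finset.subset_union_right fun v _ hv => by
      rw [aa_eq_zero_of_not_mem B v w hv, mul_zero]
  rw [h1, ← h2]
  unfold cs
  rw [Finset.sum_biUnion]
  · rw [aa, Matrix.mul_apply, MonoidAlgebra.coeff_sum, Finsupp.finsetSum_apply]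
    refine Finset.sum_congr rfl fun j _ => ?_
    rw [Finset.sum_image (fun a _ b _ hab => by
      have := (Prod.mk.inj hab).2
      exact mul_right_cancel this)]
    rw [MonoidAlgebra.coeff_mul_apply_right, Finsupp.sum]
    refine Finset.sum_congr rfl fun h _ => ?_
    simp only [aa, _root_.mul_inv_rev, mul_assoc]
    rw [mul_inv_cancel, mul_one]
  · intro i _ j _ hij
    rw [Function.onFun, Finset.disjoint_left]
    intro v h1 h2
    obtain ⟨a, _, rfl⟩ := Finset.mem_image.1 h1
    obtain ⟨b, _, h3⟩ := Finset.mem_image.1 h2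
    exact hij (Prod.mk.inj h3).1.symm

/-- sums over rows -/
theorem row_sum (A : Matrix κ κ (MonoidAlgebra ℤ Γ)) (u : κ × Γ) (L : Finset (κ × Γ)) :
    ∑ v ∈ L, |aa A u v| ≤ ∑ j, (l1 (A u.1 j) : ℤ) := by
  classical
  have h1 : L ⊆ Finset.univ ×ˢ L.image Prod.snd := by
    intro v hv
    rw [Finset.mem_product]
    exact ⟨Finset.mem_univ _, Finset.mem_image_of_mem _ hv⟩
  refine (Finset.sum_le_sum_of_subset_of_nonneg h1 fun _ _ _ => abs_nonneg _).trans ?_
  rw [Finset.sum_product]
  refine Finset.sum_le_sum fun j _ => ?_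
  have e2 : ∑ y ∈ L.image Prod.snd, |aa A u (j, y)|
      = ∑ g ∈ (L.image Prod.snd).map
        ⟨fun y => u.2 * y⁻¹, fun a b hab => inv_injective (mul_left_cancel hab)⟩,
        |(A u.1 j).coeff g| := by
    rw [Finset.sum_map]; rfl
  rw [e2]
  exact sum_le_l1 _ _

/-- the weight that leaves `L` from `u` -/
def oo (A : Matrix κ κ (MonoidAlgebra ℤ Γ)) (u : κ × Γ) (L : Finset (κ × Γ)) : ℤ :=
  2 * aa A u u - ∑ v ∈ L, |aa A u v|

theorem oo_nonneg {A : Matrix κ κ (MonoidAlgebra ℤ Γ)} (hA : DDom A) (u : κ × Γ)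
    (L : Finset (κ × Γ)) : 0 ≤ oo A u L := by
  have h1 := row_sum A u L
  have h2 := hA u.1
  unfold oo
  rw [aa_diag]
  linarith

theorem oo_zero {A : Matrix κ κ (MonoidAlgebra ℤ Γ)} (hA : DDom A) {u : κ × Γ}
    {L : Finset (κ × Γ)} (h : oo A u L = 0) (v : κ × Γ) (hv : v ∉ L) : aa A u v = 0 := by
  classical
  have h1 := oo_nonneg hA u (insert v L)
  unfold oo at h h1
  rw [Finset.sum_insert hv] at h1
  have h2 := abs_nonneg (aa A u v)
  have h3 : |aa A u v| = 0 := by linarith
  exact abs_eq_zero.1 h3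

/-- sets from which no arc leaves do not exist -/
theorem not_closed (A : (Matrix κ κ (MonoidAlgebra ℤ Γ))ˣ) (hA : DDom A.val)
    (L : Finset (κ × Γ)) (hL : L.Nonempty) (h : ∀ u ∈ L, oo A.val u L = 0) : False := by
  classical
  let M : Matrix L L ℤ := fun u v => aa A.val u v
  let G : Matrix L L ℤ := fun u v => aa A⁻¹.val u v
  have h1 : M * G = 1 := by
    ext1 u w
    rw [Matrix.mul_apply, Finset.sum_coe_sort L (fun v => aa A.val u v * aa A⁻¹.val v w)]
    rw [aa_mul A.val A⁻¹.val u w L fun v hv => by rw [oo_zero hA (h u u.2) v hv, zero_mul],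
      A.mul_inv, Matrix.one_apply]
    by_cases huw : u = w
    · rw [if_pos huw, huw, aa_one_self]
    · rw [if_neg huw, aa_one_ne _ _ fun hh => huw (Subtype.ext hh)]
  have h2 : G * M = 1 := mul_eq_one_comm.1 h1
  obtain ⟨u, hu⟩ := hL
  have h3 := congrFun (congrArg (fun X : Matrix L L ℤ => X *ᵥ (fun _ => 1)) h2) ⟨u, hu⟩
  simp only [← Matrix.mulVec_mulVec, Matrix.one_mulVec] at h3
  have h4 : ∀ v : L, ((M *ᵥ (fun _ => 1)) v : ZMod 2) = 0 := by
    intro v
    have h5 := h v v.2
    unfold oo at h5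
    have h6 : ((2 * aa A.val v v - ∑ w ∈ L, |aa A.val v w| : ℤ) : ZMod 2) = 0 := by
      rw [h5]; rfl
    simp only [Matrix.mulVec, dotProduct, mul_one]
    rw [Finset.sum_coe_sort L (fun w => aa A.val v w)]
    push_cast at h6 ⊢
    have h7 : (2 : ZMod 2) = 0 := rfl
    rw [h7, zero_mul, zero_sub, neg_eq_zero] at h6
    rw [← h6]
    refine Finset.sum_congr rfl fun w _ => ?_
    rcases abs_choice (aa A.val v w) with h8 | h8
    · rw [h8]
    · rw [h8]; push_cast
      rw [ZMod.neg_eq_self_mod_two]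
  have h5 : ((1 : ℤ) : ZMod 2) = 0 := by
    rw [← h3]
    rw [Matrix.mulVec, dotProduct]
    push_cast
    exact Finset.sum_eq_zero fun v _ => by rw [h4 v, mul_zero]
  simp at h5

/-- the top level set of a column of the inverse -/
theorem exists_top (A : (Matrix κ κ (MonoidAlgebra ℤ Γ))ˣ) (hA : DDom A.val) (w : κ × Γ) :
    ∃ L : Finset (κ × Γ), w ∈ L ∧ oo A.val w L = 1 ∧ ∀ u ∈ L, u ≠ w → oo A.val u L = 0 := by
  classical
  set f : κ × Γ → ℤ := fun v => aa A⁻¹.val v w with hf
  set F := cs A⁻¹.val w with hF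
  have hFf : ∀ v, v ∉ F → f v = 0 := fun v hv => aa_eq_zero_of_not_mem _ v w hv
  have heq : ∀ u, ∑ v ∈ F, aa A.val u v * f v = if u = w then 1 else 0 := by
    intro u
    rw [hf]
    rw [aa_mul A.val A⁻¹.val u w F fun v hv => by
      rw [aa_eq_zero_of_not_mem A⁻¹.val v w hv, mul_zero], A.mul_inv]
    by_cases h : u = w
    · rw [if_pos h, h, aa_one_self]
    · rw [if_neg h, aa_one_ne _ _ h]
  have hne : ∃ v ∈ F, f v ≠ 0 := by
    by_contra hcon
    push Not at hcon
    have h1 := heq w
    rw [if_pos rfl, Finset.sum_eq_zero fun v hv => by rw [hcon v hv, mul_zero]] at h1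
    exact absurd h1 (by norm_num)
  obtain ⟨v0, hv0, hv1⟩ := hne
  obtain ⟨v1, hv2, hv3⟩ := Finset.exists_max_image F (fun v => |f v|) ⟨v0, hv0⟩
  set m := |f v1| with hm
  have hm1 : 1 ≤ m := by
    have h1 := hv3 v0 hv0
    have h2 : 0 < |f v0| := abs_pos.2 hv1
    exact Int.add_one_le_iff.2 (lt_of_lt_of_le h2 h1)
  have hle : ∀ v ∈ F, |f v| ≤ m := hv3
  set L := F.filter fun v => |f v| = m with hL
  have hmem : ∀ v, v ∈ L ↔ v ∈ F ∧ |f v| = m := fun v => by rw [hL, Finset.mem_filter]
  have hkey : ∀ u ∈ L, oo A.val u L ≤ if u = w then 1 else 0 := by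
    intro u hu
    obtain ⟨hu1, hu2⟩ := (hmem u).1 hu
    -- the sign
    obtain ⟨s, hs1, hs2⟩ : ∃ s : ℤ, s * f u = m ∧ (s = 1 ∨ s = -1) := by
      rcases abs_choice (f u) with h | h
      · exact ⟨1, by rw [one_mul, ← hu2, h], Or.inl rfl⟩
      · exact ⟨-1, by rw [← hu2, h]; ring, Or.inr rfl⟩
    have h1 := heq u
    have h2 : ∑ v ∈ F, aa A.val u v * (s * f v) = s * if u = w then 1 else 0 := by
      rw [← h1, Finset.mul_sum]
      exact Finset.sum_congr rfl fun v _ => by ring
    have h3 : s * (if u = w then 1 else 0) ≤ if u = w then 1 else 0 := by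
      split_ifs
      · rcases hs2 with rfl | rfl <;> norm_num
      · norm_num
    refine le_trans ?_ h3
    rw [← h2]
    -- split off the diagonal
    have h4 : ∑ v ∈ F, aa A.val u v * (s * f v)
        = aa A.val u u * m + ∑ v ∈ F.erase u, aa A.val u v * (s * f v) := by
      rw [← Finset.add_sum_erase F _ hu1, hs1]
    have h5 : ∑ v ∈ F, |aa A.val u v| = |aa A.val u u| + ∑ v ∈ F.erase u, |aa A.val u v| := by
      rw [← Finset.add_sum_erase F _ hu1]
    have h6 : ∑ v ∈ L, |aa A.val u v| = |aa A.val u u| + ∑ v ∈ L.erase u, |aa A.val u v| := by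
      rw [← Finset.add_sum_erase L _ hu]
    have h7 := oo_nonneg hA u F
    unfold oo at h7 ⊢
    have h8 : 0 ≤ aa A.val u u := by
      have := abs_nonneg (aa A.val u u)
      have h9 : 0 ≤ ∑ v ∈ F.erase u, |aa A.val u v| := Finset.sum_nonneg fun _ _ => abs_nonneg _
      linarith
    rw [abs_of_nonneg h8] at h5 h6
    -- terms
    have h9 : ∀ v ∈ F.erase u, -(m * |aa A.val u v|)
        + (if v ∈ L then 0 else |aa A.val u v|) ≤ aa A.val u v * (s * f v) := by
      intro v hv
      have hvF := Finset.mem_of_mem_erase hv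
      have e1 : |aa A.val u v * (s * f v)| = |aa A.val u v| * |f v| := by
        rw [abs_mul, abs_mul]
        rcases hs2 with rfl | rfl <;> simp
      have e2 := neg_abs_le (aa A.val u v * (s * f v))
      rw [e1] at e2
      have e3 := abs_nonneg (aa A.val u v)
      by_cases hvL : v ∈ L
      · rw [if_pos hvL]
        have e4 := ((hmem v).1 hvL).2
        rw [e4] at e2
        linarith
      · rw [if_neg hvL]
        have e4 : |f v| ≤ m - 1 := by
          have e5 := hle v hvF
          have e6 : |f v| ≠ m := fun e7 => hvL ((hmem v).2 ⟨hvF, e7⟩)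
          omega
        have e5 : |aa A.val u v| * |f v| ≤ |aa A.val u v| * (m - 1) :=
          mul_le_mul_of_nonneg_left e4 e3
        linarith
    have h10 := Finset.sum_le_sum h9
    rw [Finset.sum_add_distrib, Finset.sum_neg_distrib, ← Finset.mul_sum] at h10
    have h11 : ∑ v ∈ F.erase u, (if v ∈ L then 0 else |aa A.val u v|)
        = ∑ v ∈ F.erase u, |aa A.val u v| - ∑ v ∈ L.erase u, |aa A.val u v| := by
      have e1 : ∑ v ∈ L.erase u, |aa A.val u v|
          = ∑ v ∈ F.erase u, if v ∈ L then |aa A.val u v| else 0 := by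
        rw [← Finset.sum_filter]
        refine Finset.sum_congr ?_ fun _ _ => rfl
        ext v
        simp only [Finset.mem_erase, Finset.mem_filter]
        constructor
        · rintro ⟨a, b⟩; exact ⟨⟨a, ((hmem v).1 b).1⟩, b⟩
        · rintro ⟨⟨a, _⟩, b⟩; exact ⟨a, b⟩
      rw [e1, ← Finset.sum_sub_distrib]
      refine Finset.sum_congr rfl fun v _ => ?_
      split_ifs <;> ring
    rw [h11] at h10
    rw [h4, h6]
    set X := ∑ v ∈ F.erase u, |aa A.val u v|
    set Y := ∑ v ∈ L.erase u, |aa A.val u v|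
    set d := aa A.val u u
    rw [h5] at h7
    nlinarith
  have h0 : ∀ u ∈ L, u ≠ w → oo A.val u L = 0 := fun u hu huw => by
    have h1 := hkey u hu
    rw [if_neg huw] at h1
    exact le_antisymm h1 (oo_nonneg hA u L)
  have hLne : L.Nonempty := ⟨v1, (hmem v1).2 ⟨hv2, rfl⟩⟩
  have hw : w ∈ L := by
    by_contra hw
    exact not_closed A hA L hLne fun u hu => h0 u hu fun h => hw (h ▸ hu)
  refine ⟨L, hw, ?_, h0⟩
  have h1 := hkey w hw
  rw [if_pos rfl] at h1
  have h2 := oo_nonneg hA w L
  have h3 : oo A.val w L ≠ 0 := by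
    intro h3
    refine not_closed A hA L hLne fun u hu => ?_
    by_cases huw : u = w
    · rw [huw]; exact h3
    · exact h0 u hu huw
  omega

/-- some diagonal coefficient is one -/
theorem exists_diag_one (A : (Matrix κ κ (MonoidAlgebra ℤ Γ))ˣ) (hA : DDom A.val) [Nonempty κ] :
    ∃ i, (A.val i i).coeff 1 = 1 := by
  classical
  have key : ∀ n : ℕ, ∀ (L : Finset (κ × Γ)) (w : κ × Γ), L.card = n → w ∈ L →
      oo A.val w L = 1 → (∀ u ∈ L, u ≠ w → oo A.val u L = 0) →
      ∃ i, (A.val i i).coeff 1 = 1 := by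
    intro n
    induction n using Nat.strong_induction_on with
    | _ n ih =>
    intro L w hn hw h1 h2
    by_cases h3 : ∃ v ∈ L, v ≠ w
    · obtain ⟨v, hv, hvw⟩ := h3
      obtain ⟨L', hv', h1', h2'⟩ := exists_top A hA v
      by_cases hwL' : w ∈ L'
      · exfalso
        refine not_closed A hA (L ∪ L') ⟨w, Finset.mem_union_left _ hw⟩ fun u hu => ?_
        have h4 : ∀ L1 : Finset (κ × Γ), L1 ⊆ L ∪ L' → oo A.val u L1 = 0 →
            oo A.val u (L ∪ L') = 0 := by
          intro L1 hL1 h5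
          have h6 := oo_nonneg hA u (L ∪ L')
          have h7 : ∑ v ∈ L1, |aa A.val u v| ≤ ∑ v ∈ L ∪ L', |aa A.val u v| :=
            Finset.sum_le_sum_of_subset_of_nonneg hL1 fun _ _ _ => abs_nonneg _
          unfold oo at h5 h6 ⊢
          linarith
        by_cases huw : u = w
        · rw [huw] at h4 ⊢
          exact h4 L' Finset.subset_union_right (h2' w hwL' (Ne.symm hvw))
        · rcases Finset.mem_union.1 hu with hu | hu
          · exact h4 L Finset.subset_union_left (h2 u hu huw)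
          · by_cases huv : u = v
            · exact h4 L Finset.subset_union_left (h2 u (huv ▸ hv) huw)
            · exact h4 L' Finset.subset_union_right (h2' u hu huv)
      · -- the intersection
        have h4 : ∀ u ∈ L ∩ L', oo A.val u (L ∩ L') = oo A.val u L' := by
          intro u hu
          obtain ⟨hu1, hu2⟩ := Finset.mem_inter.1 hu
          have huw : u ≠ w := fun h => hwL' (h ▸ hu2)
          have h5 := h2 u hu1 huw
          unfold oo
          congr 1
          refine Finset.sum_subset Finset.inter_subset_right fun x hx hx2 => ?_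
          have h6 : x ∉ L := fun h => hx2 (Finset.mem_inter.2 ⟨h, hx⟩)
          rw [oo_zero hA h5 x h6, abs_zero]
        have hvm : v ∈ L ∩ L' := Finset.mem_inter.2 ⟨hv, hv'⟩
        have hc : (L ∩ L').card < n := by
          rw [← hn]
          apply Finset.card_lt_card
          refine ⟨Finset.inter_subset_left, fun h => hwL' ?_⟩
          exact (Finset.mem_inter.1 (h hw)).2
        refine ih _ hc (L ∩ L') v rfl hvm ?_ fun u hu huv => ?_
        · rw [h4 v hvm, h1']
        · rw [h4 u hu, h2' u (Finset.mem_inter.1 hu).2 huv]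
    · push Not at h3
      have h4 : L = {w} := by
        ext x
        rw [Finset.mem_singleton]
        exact ⟨fun hx => h3 x hx, fun hx => hx ▸ hw⟩
      refine ⟨w.1, ?_⟩
      rw [h4] at h1
      unfold oo at h1
      rw [Finset.sum_singleton, ← aa_diag] at *
      have h5 := oo_nonneg hA w {w}
      rcases abs_choice (aa A.val w w) with h6 | h6
      · rw [h6] at h1; linarith
      · rw [h6] at h1
        have h7 := abs_nonneg (aa A.val w w)
        omega
  obtain ⟨i⟩ := ‹Nonempty κ›
  obtain ⟨L, h1, h2, h3⟩ := exists_top A hA (i, 1)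
  exact key _ L (i, 1) rfl h1 h2 h3

end Pool.Agent.R719.DD
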